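import Pool.Agent.Run7.h464.El

set_option autoImplicit false

open MvPolynomial

noncomputable section

namespace Run7.h464

section Aut

variable {B : Type} [CommRing B] {σ : Type}

/-- The tame group over a commutative ring. -/
def Tame (σ B : Type) [CommRing B] : Subgroup (MvPolynomial σ B ≃ₐ[B] MvPolynomial σ B) :=
  Subgroup.closure ({τ | ∀ i, (τ (X i)).totalDegree ≤ 1} ∪
    {τ | ∃ (i : σ) (f : MvPolynomial σ B), i ∉ f.vars ∧ τ (X i) = X i + f ∧
      ∀ j, j ≠ i → τ (X j) = X j})

theorem Tame.affine {τ : MvPolynomial σ B ≃ₐ[B] MvPolynomial σ B}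
    (h : ∀ i, (τ (X i)).totalDegree ≤ 1) : τ ∈ Tame σ B :=
  Subgroup.subset_closure (Or.inl h)

theorem Tame.elem {τ : MvPolynomial σ B ≃ₐ[B] MvPolynomial σ B} (i : σ) (f : MvPolynomial σ B)
    (hf : i ∉ f.vars) (h1 : τ (X i) = X i + f) (h2 : ∀ j, j ≠ i → τ (X j) = X j) :
    τ ∈ Tame σ B :=
  Subgroup.subset_closure (Or.inr ⟨i, f, hf, h1, h2⟩)

theorem aut_ext {τ τ' : MvPolynomial σ B ≃ₐ[B] MvPolynomial σ B}
    (h : ∀ i, τ (X i) = τ' (X i)) : τ = τ' := by
  apply AlgEquiv.ext
  intro p
  have : (τ : MvPolynomial σ B →ₐ[B] MvPolynomial σ B) = τ' := by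
    apply MvPolynomial.algHom_ext
    exact h
  exact AlgHom.congr_fun this p

/-- Automorphism from mutually inverse substitutions. -/
def mkAut (f g : σ → MvPolynomial σ B) (h1 : ∀ i, aeval f (g i) = X i)
    (h2 : ∀ i, aeval g (f i) = X i) : MvPolynomial σ B ≃ₐ[B] MvPolynomial σ B :=
  AlgEquiv.ofAlgHom (aeval f) (aeval g)
    (MvPolynomial.algHom_ext (fun i => by
      rw [AlgHom.comp_apply, aeval_X, h1, AlgHom.id_apply]))
    (MvPolynomial.algHom_ext (fun i => by
      rw [AlgHom.comp_apply, aeval_X, h2, AlgHom.id_apply]))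

theorem totalDegree_X_le (i : σ) : (X i : MvPolynomial σ B).totalDegree ≤ 1 := by
  by_cases hB : Nontrivial B
  · rw [totalDegree_X]
  · have : Subsingleton B := not_nontrivial_iff_subsingleton.1 hB
    have h6 : (X i : MvPolynomial σ B) = 0 := Subsingleton.elim _ _
    rw [h6, totalDegree_zero]
    omega

@[simp] theorem mkAut_X (f g : σ → MvPolynomial σ B) (h1 : ∀ i, aeval f (g i) = X i)
    (h2 : ∀ i, aeval g (f i) = X i) (i : σ) : mkAut f g h1 h2 (X i) = f i := by
  simp [mkAut]

theorem fix_supported {T : Set σ} {p : MvPolynomial σ B} (hp : p ∈ supported B T)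
    (f : MvPolynomial σ B →ₐ[B] MvPolynomial σ B) (hf : ∀ i ∈ T, f (X i) = X i) : f p = p := by
  unfold supported at hp
  induction hp using Algebra.adjoin_induction with
  | mem x hx =>
    obtain ⟨i, hi, rfl⟩ := hx
    exact hf i hi
  | algebraMap r => exact f.commutes r
  | add x y _ _ hx hy => rw [map_add, hx, hy]
  | mul x y _ _ hx hy => rw [map_mul, hx, hy]

/-- Shear automorphisms. -/
def shear (T : Set σ) (s : σ → MvPolynomial σ B) (h0 : ∀ i ∉ T, s i = 0)
    (h1 : ∀ i, s i ∈ supported B Tᶜ) : MvPolynomial σ B ≃ₐ[B] MvPolynomial σ B :=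
  mkAut (fun i => X i + s i) (fun i => X i - s i)
    (fun i => by
      rw [map_sub, aeval_X, fix_supported (h1 i) _ (fun j hj => by rw [aeval_X, h0 j hj, add_zero])]
      ring)
    (fun i => by
      rw [map_add, aeval_X, fix_supported (h1 i) _ (fun j hj => by rw [aeval_X, h0 j hj, sub_zero])]
      ring)

theorem shear_X (T : Set σ) (s : σ → MvPolynomial σ B) (h0 : ∀ i ∉ T, s i = 0)
    (h1 : ∀ i, s i ∈ supported B Tᶜ) (i : σ) : shear T s h0 h1 (X i) = X i + s i := by
  simp [shear]

theorem shear_tame [Finite σ] (T : Set σ) (s : σ → MvPolynomial σ B) (h0 : ∀ i ∉ T, s i = 0)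
    (h1 : ∀ i, s i ∈ supported B Tᶜ) : shear T s h0 h1 ∈ Tame σ B := by
  classical
  have := Fintype.ofFinite σ
  have key : ∀ F : Finset σ, ∃ τ ∈ Tame σ B, ∀ i, τ (X i) = X i + if i ∈ F then s i else 0 := by
    intro F
    induction F using Finset.induction_on with
    | empty => exact ⟨1, one_mem _, fun i => by simp⟩
    | insert a F ha ih =>
      obtain ⟨τ, hτ, hτX⟩ := ih
      by_cases haT : a ∈ T
      · let e := shear (B := B) {a} (fun i => if i = a then s a else 0)
          (fun i hi => if_neg hi) (fun i => by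
            split_ifs
            · exact supported_mono (by simpa using haT) (h1 a)
            · exact zero_mem _)
        have heX : ∀ i, e (X i) = X i + if i = a then s a else 0 :=
          fun i => shear_X _ _ _ _ i
        have he : e ∈ Tame σ B := by
          refine Tame.elem a (s a) ?_ ?_ ?_
          · intro hav
            have h2 := mem_supported.1 (h1 a)
            exact (h2 hav) haT
          · rw [heX, if_pos rfl]
          · intro j hj
            rw [heX, if_neg hj, add_zero]
        refine ⟨e * τ, mul_mem he hτ, fun i => ?_⟩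
        rw [AlgEquiv.mul_apply, hτX, map_add, heX]
        have h3 : e (if i ∈ F then s i else 0) = if i ∈ F then s i else 0 := by
          split_ifs with hi
          · apply fix_supported (h1 i) (e : MvPolynomial σ B →ₐ[B] MvPolynomial σ B)
            intro j hj
            have hja : j ≠ a := by
              rintro rfl
              exact hj haT
            show e (X j) = X j
            rw [heX, if_neg hja, add_zero]
          · exact map_zero e
        rw [h3]
        by_cases hia : i = a
        · subst hia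
          simp [ha]
        · simp [hia]
      · refine ⟨τ, hτ, fun i => ?_⟩
        rw [hτX]
        congr 1
        by_cases hia : i = a
        · subst hia
          simp [ha, h0 i haT]
        · simp [hia]
  obtain ⟨τ, hτ, hτX⟩ := key Finset.univ
  have : shear T s h0 h1 = τ := aut_ext fun i => by
    rw [shear_X, hτX]
    simp
  rw [this]
  exact hτ

end Aut

section Lin

open Matrix

variable {B : Type} [CommRing B] {ι κ : Type} [Fintype κ] [DecidableEq κ]

/-- Substitution by a matrix in the second group of variables. -/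
def linF (M : Matrix κ κ (MvPolynomial ι B)) : ι ⊕ κ → MvPolynomial (ι ⊕ κ) B :=
  Sum.elim (fun i => X (Sum.inl i)) (fun a => ∑ b, rename Sum.inl (M a b) * X (Sum.inr b))

theorem linF_inl (M : Matrix κ κ (MvPolynomial ι B)) (p : MvPolynomial ι B) :
    aeval (linF M) (rename Sum.inl p) = rename (Sum.inl : ι → ι ⊕ κ) p := by
  have : (aeval (linF M)).comp (rename (R := B) Sum.inl) = rename (Sum.inl : ι → ι ⊕ κ) := by
    apply MvPolynomial.algHom_ext
    intro i
    simp [linF]
  exact AlgHom.congr_fun this p

theorem linF_comp (M N : Matrix κ κ (MvPolynomial ι B)) (i : ι ⊕ κ) :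
    aeval (linF M) (linF N i) = linF (N * M) i := by
  rcases i with i | a
  · simp [linF]
  · have h1 : linF N (Sum.inr a) = ∑ b, rename Sum.inl (N a b) * X (Sum.inr b) := rfl
    have h2 : linF (N * M) (Sum.inr a) =
        ∑ b, rename Sum.inl ((N * M) a b) * X (Sum.inr b) := rfl
    rw [h1, h2, map_sum]
    have h3 : ∀ b, aeval (linF M) (rename Sum.inl (N a b) * X (Sum.inr b) :
        MvPolynomial (ι ⊕ κ) B) = ∑ c, rename Sum.inl (N a b * M b c) * X (Sum.inr c) := by
      intro b
      rw [map_mul, linF_inl, aeval_X]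
      show _ * (∑ c, rename Sum.inl (M b c) * X (Sum.inr c)) = _
      rw [Finset.mul_sum]
      apply Finset.sum_congr rfl
      intro c _
      rw [map_mul, mul_assoc]
    simp only [h3]
    rw [Finset.sum_comm]
    apply Finset.sum_congr rfl
    intro c _
    rw [Matrix.mul_apply, map_sum, Finset.sum_mul]

theorem linF_one (i : ι ⊕ κ) : linF (1 : Matrix κ κ (MvPolynomial ι B)) i = X i := by
  rcases i with i | a
  · rfl
  · show ∑ b, rename Sum.inl ((1 : Matrix κ κ (MvPolynomial ι B)) a b) * X (Sum.inr b) = _
    simp [Matrix.one_apply]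

/-- The automorphism attached to an invertible matrix. -/
def lin (M N : Matrix κ κ (MvPolynomial ι B)) (h1 : M * N = 1) (h2 : N * M = 1) :
    MvPolynomial (ι ⊕ κ) B ≃ₐ[B] MvPolynomial (ι ⊕ κ) B :=
  mkAut (linF M) (linF N) (fun i => by rw [linF_comp, h2, linF_one])
    (fun i => by rw [linF_comp, h1, linF_one])

theorem lin_X (M N : Matrix κ κ (MvPolynomial ι B)) (h1 : M * N = 1) (h2 : N * M = 1)
    (i : ι ⊕ κ) : lin M N h1 h2 (X i) = linF M i := by
  simp [lin]

theorem lin_tame_of_El [Finite ι] {M : Matrix κ κ (MvPolynomial ι B)} (hM : IsEl M) :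
    ∃ τ ∈ Tame (ι ⊕ κ) B, ∀ i, τ (X i) = linF M i := by
  have hM' : M ∈ El κ (MvPolynomial ι B) := hM
  induction hM' using Submonoid.closure_induction with
  | mem x hx =>
    obtain ⟨a, b, c, hab, rfl⟩ := hx
    have h1 : transvection a b c * transvection a b (-c) = 1 := by
      rw [transvection_mul_transvection_same a b hab, add_neg_cancel, transvection_zero]
    have h2 : transvection a b (-c) * transvection a b c = 1 := by
      rw [transvection_mul_transvection_same a b hab, neg_add_cancel, transvection_zero]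
    refine ⟨lin _ _ h1 h2, ?_, fun i => lin_X _ _ _ _ i⟩
    have h3 : ∀ d : κ, linF (transvection a b c) (Sum.inr d) =
        X (Sum.inr d) + if d = a then rename Sum.inl c * X (Sum.inr b) else 0 := by
      intro d
      show ∑ e, rename Sum.inl (transvection a b c d e) * X (Sum.inr e) = _
      simp only [transvection, Matrix.add_apply, map_add, add_mul, Finset.sum_add_distrib]
      congr 1
      · simp [Matrix.one_apply]
      · simp only [Matrix.single_apply]
        by_cases hd : d = a
        · subst hd
          rw [Finset.sum_eq_single b]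
          · simp
          · intro e _ he
            rw [if_neg (fun h => he h.2.symm), map_zero, zero_mul]
          · simp
        · rw [if_neg hd]
          apply Finset.sum_eq_zero
          intro e _
          rw [if_neg (fun h => hd h.1.symm), map_zero, zero_mul]
    refine Tame.elem (Sum.inr a) (rename Sum.inl c * X (Sum.inr b)) ?_ ?_ ?_
    · intro h
      classical
      have h4 := vars_mul _ _ h
      rw [Finset.mem_union] at h4
      rcases h4 with h4 | h4
      · have h5 := vars_rename _ _ h4
        rw [Finset.mem_image] at h5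
        obtain ⟨x, _, hx⟩ := h5
        exact Sum.inl_ne_inr hx
      · by_cases hB : Nontrivial B
        · rw [vars_X, Finset.mem_singleton] at h4
          exact hab (Sum.inr_injective h4)
        · have : Subsingleton B := not_nontrivial_iff_subsingleton.1 hB
          have h6 : (X (Sum.inr b) : MvPolynomial (ι ⊕ κ) B) = 0 := Subsingleton.elim _ _
          rw [h6, vars_0] at h4
          simp at h4
    · rw [lin_X, h3, if_pos rfl]
    · rintro (j | j) hj
      · rw [lin_X]
        rfl
      · rw [lin_X, h3, if_neg (fun h => hj (by rw [h])), add_zero]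
  | one => exact ⟨1, one_mem _, fun i => by rw [linF_one]; rfl⟩
  | mul x y hx hy ihx ihy =>
    obtain ⟨τ, hτ, hτX⟩ := ihx hx
    obtain ⟨τ', hτ', hτX'⟩ := ihy hy
    refine ⟨τ' * τ, mul_mem hτ' hτ, fun i => ?_⟩
    rw [AlgEquiv.mul_apply, hτX, ← linF_comp]
    have : (τ' : MvPolynomial (ι ⊕ κ) B →ₐ[B] MvPolynomial (ι ⊕ κ) B) = aeval (linF y) := by
      apply MvPolynomial.algHom_ext
      intro j
      rw [aeval_X]
      exact hτX' j
    exact AlgHom.congr_fun this _

theorem lin_tame_const [Finite ι] (M N : Matrix κ κ B) (h1 : M * N = 1) (h2 : N * M = 1) :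
    ∃ τ ∈ Tame (ι ⊕ κ) B, ∀ i, τ (X i) = linF (M.map C) i := by
  have hC : ∀ P : Matrix κ κ B, P.map C = P.map (C (σ := ι) : B →+* MvPolynomial ι B) :=
    fun _ => rfl
  have e1 : (M.map C : Matrix κ κ (MvPolynomial ι B)) * N.map C = 1 := by
    rw [hC, hC, ← Matrix.map_mul, h1, Matrix.map_one _ (map_zero _) (map_one _)]
  have e2 : (N.map C : Matrix κ κ (MvPolynomial ι B)) * M.map C = 1 := by
    rw [hC, hC, ← Matrix.map_mul, h2, Matrix.map_one _ (map_zero _) (map_one _)]
  refine ⟨lin _ _ e1 e2, ?_, fun i => lin_X _ _ _ _ i⟩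
  apply Tame.affine
  rintro (i | a)
  · rw [lin_X]
    exact totalDegree_X_le _
  · rw [lin_X]
    show (∑ b, rename Sum.inl (C (M a b)) * X (Sum.inr b) :
      MvPolynomial (ι ⊕ κ) B).totalDegree ≤ 1
    refine totalDegree_finsetSum_le (fun b _ => ?_)
    rw [rename_C]
    refine (totalDegree_mul _ _).trans ?_
    rw [totalDegree_C, zero_add]
    exact totalDegree_X_le _

end Lin

end Run7.h464
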