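import Pool.Agent.Run7.h464.Word

set_option autoImplicit false

open MvPolynomial Filter

noncomputable section

namespace Run7.h464

section Ultra

variable (U : Ultrafilter ℕ) (k : ℕ → Type) [∀ j, Field (k j)]

/-- The ideal of families that vanish for almost all indices. -/
def IU : Ideal (∀ j, k j) where
  carrier := {x | ∀ᶠ j in (U : Filter ℕ), x j = 0}
  add_mem' := by
    intro a b ha hb
    filter_upwards [ha, hb] with j h1 h2
    rw [Pi.add_apply, h1, h2, add_zero]
  zero_mem' := Eventually.of_forall fun j => rfl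
  smul_mem' := by
    intro c x hx
    filter_upwards [hx] with j h1
    rw [smul_eq_mul, Pi.mul_apply, h1, mul_zero]

theorem mem_IU {x : ∀ j, k j} : x ∈ IU U k ↔ ∀ᶠ j in (U : Filter ℕ), x j = 0 := Iff.rfl

theorem IU_max : (IU U k).IsMaximal := by
  rw [Ideal.isMaximal_iff]
  constructor
  · intro h
    rw [mem_IU] at h
    obtain ⟨j, hj⟩ := h.exists
    exact one_ne_zero hj
  · intro J x hJ hx hxJ
    have h1 : ∀ᶠ j in (U : Filter ℕ), x j ≠ 0 := by
      rw [mem_IU] at hx
      exact Ultrafilter.eventually_not.2 hx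
    have h2 : (1 - x * (fun j => (x j)⁻¹) : ∀ j, k j) ∈ J := by
      apply hJ
      rw [mem_IU]
      filter_upwards [h1] with j hj
      simp [hj]
    have h3 := J.add_mem h2 (J.mul_mem_right (fun j => (x j)⁻¹) hxJ)
    simpa using h3

/-- The ultraproduct. -/
abbrev KU : Type := (∀ j, k j) ⧸ IU U k

/-- Its field structure. -/
@[reducible] def fieldKU : Field (KU U k) :=
  letI := IU_max U k
  Ideal.Quotient.field (IU U k)

variable {σ : Type}

theorem ev_eq (p q : MvPolynomial σ (∀ j, k j))
    (h : MvPolynomial.map (Ideal.Quotient.mk (IU U k)) p =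
      MvPolynomial.map (Ideal.Quotient.mk (IU U k)) q) :
    ∀ᶠ j in (U : Filter ℕ), MvPolynomial.map (Pi.evalRingHom k j) p =
      MvPolynomial.map (Pi.evalRingHom k j) q := by
  have h1 : ∀ m ∈ (p - q).support, ∀ᶠ j in (U : Filter ℕ), coeff m (p - q) j = 0 := by
    intro m _
    rw [← mem_IU, ← Ideal.Quotient.eq_zero_iff_mem, ← coeff_map, map_sub, h, sub_self, coeff_zero]
  have h2 : ∀ᶠ j in (U : Filter ℕ), ∀ m ∈ (p - q).support, coeff m (p - q) j = 0 :=
    (Filter.eventually_all_finset _).2 h1
  filter_upwards [h2] with j hj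
  rw [← sub_eq_zero, ← map_sub]
  ext m
  rw [coeff_map, coeff_zero]
  by_cases hm : m ∈ (p - q).support
  · exact hj m hm
  · rw [notMem_support_iff.1 hm, map_zero]

theorem lift_poly (p : MvPolynomial σ (KU U k)) : ∃ q : MvPolynomial σ (∀ j, k j),
    MvPolynomial.map (Ideal.Quotient.mk (IU U k)) q = p ∧
      ∀ j, (MvPolynomial.map (Pi.evalRingHom k j) q).support ⊆ p.support := by
  classical
  let out : KU U k → (∀ j, k j) := Function.surjInv Ideal.Quotient.mk_surjective
  have hout : ∀ c, Ideal.Quotient.mk (IU U k) (out c) = c :=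
    Function.surjInv_eq Ideal.Quotient.mk_surjective
  refine ⟨∑ m ∈ p.support, monomial m (out (coeff m p)), ?_, ?_⟩
  · rw [map_sum]
    conv_rhs => rw [p.as_sum]
    apply Finset.sum_congr rfl
    intro m _
    rw [map_monomial, hout]
  · intro j m hm
    by_contra hcon
    rw [mem_support_iff] at hm
    apply hm
    rw [coeff_map, coeff_sum, Finset.sum_eq_zero, map_zero]
    intro x hx
    rw [coeff_monomial, if_neg]
    rintro rfl
    exact hcon hx

theorem totalDegree_le_of_support {R S : Type} [CommRing R] [CommRing S] {p : MvPolynomial σ R}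
    {q : MvPolynomial σ S} (h : p.support ⊆ q.support) : p.totalDegree ≤ q.totalDegree :=
  Finset.sup_mono h

theorem vars_of_support {R S : Type} [CommRing R] [CommRing S] {p : MvPolynomial σ R}
    {q : MvPolynomial σ S} (h : p.support ⊆ q.support) {i : σ} (hi : i ∉ q.vars) :
    i ∉ p.vars := by
  intro hp
  rw [mem_vars_iff_mem_support] at hp hi
  obtain ⟨m, hm, him⟩ := hp
  exact hi ⟨m, h hm, him⟩

end Ultra

section Transfer

variable (U : Ultrafilter ℕ) (k : ℕ → Type) [∀ j, Field (k j)] {N : ℕ}

theorem map_aeval' {R S : Type} [CommRing R] [CommRing S] (θ : R →+* S)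
    (F : Fin N → MvPolynomial (Fin N) R) (p : MvPolynomial (Fin N) R) :
    MvPolynomial.map θ (aeval F p) =
      aeval (fun i => MvPolynomial.map θ (F i)) (MvPolynomial.map θ p) := by
  induction p using MvPolynomial.induction_on with
  | C r =>
    rw [map_C, aeval_C, aeval_C]
    exact map_C _ _
  | add p q hp hq => rw [map_add, map_add, hp, hq, map_add, map_add]
  | mul_X p i hp => rw [map_mul, map_mul, hp, aeval_X, map_mul, map_X, map_mul, aeval_X]

theorem aut_apply {R : Type} [CommRing R]
    (g : MvPolynomial (Fin N) R ≃ₐ[R] MvPolynomial (Fin N) R) (p : MvPolynomial (Fin N) R) :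
    aeval (fun i => g (X i)) p = g p := by
  have : aeval (fun i => g (X i)) =
      (g : MvPolynomial (Fin N) R →ₐ[R] MvPolynomial (Fin N) R) := by
    apply MvPolynomial.algHom_ext
    intro i
    rw [aeval_X]
    rfl
  rw [this]
  rfl

/-- A tame automorphism over the ultraproduct comes from words of bounded complexity over almost
all factors. -/
theorem transfer (τ : letI := fieldKU U k
      MvPolynomial (Fin N) (KU U k) ≃ₐ[KU U k] MvPolynomial (Fin N) (KU U k))
    (hτ : letI := fieldKU U k; τ ∈ Tame (Fin N) (KU U k)) :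
    ∃ (c : ℕ) (F : Fin N → MvPolynomial (Fin N) (∀ j, k j)),
      (∀ i, MvPolynomial.map (Ideal.Quotient.mk (IU U k)) (F i) = τ (X i)) ∧
      ∀ᶠ j in (U : Filter ℕ), ∃ g : MvPolynomial (Fin N) (k j) ≃ₐ[k j] MvPolynomial (Fin N) (k j),
        Word c g ∧ ∀ i, g (X i) = MvPolynomial.map (Pi.evalRingHom k j) (F i) := by
  let _ := fieldKU U k
  have hτ' : τ ∈ Tame (Fin N) (KU U k) := hτ
  unfold Tame at hτ'
  induction hτ' using Subgroup.closure_induction with
  | mem g hg =>
    rcases hg with hg | ⟨i, f, hf, h1, h2⟩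
    · choose F hF hFs using fun i => lift_poly U k (g (X i))
      choose G hG hGs using fun i => lift_poly U k (g⁻¹ (X i))
      refine ⟨1, F, hF, ?_⟩
      have h1 : ∀ᶠ j in (U : Filter ℕ), ∀ i, MvPolynomial.map (Pi.evalRingHom k j)
          (aeval F (G i)) = MvPolynomial.map (Pi.evalRingHom k j) (X i) := by
        rw [Filter.eventually_all]
        intro i
        apply ev_eq
        rw [map_aeval']
        simp only [hF, hG]
        rw [aut_apply, map_X]
        exact g.apply_symm_apply _
      have h2 : ∀ᶠ j in (U : Filter ℕ), ∀ i, MvPolynomial.map (Pi.evalRingHom k j)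
          (aeval G (F i)) = MvPolynomial.map (Pi.evalRingHom k j) (X i) := by
        rw [Filter.eventually_all]
        intro i
        apply ev_eq
        rw [map_aeval']
        simp only [hF, hG]
        rw [aut_apply g⁻¹, map_X]
        exact g.symm_apply_apply _
      filter_upwards [h1, h2] with j hj1 hj2
      simp only [map_aeval', map_X] at hj1 hj2
      refine ⟨mkAut (fun i => MvPolynomial.map (Pi.evalRingHom k j) (F i))
        (fun i => MvPolynomial.map (Pi.evalRingHom k j) (G i)) hj1 hj2, ?_, fun i => by simp⟩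
      refine ⟨[_], by simp, ?_, List.prod_singleton⟩
      intro g' hg'
      rw [List.mem_singleton] at hg'
      subst hg'
      left
      intro i
      rw [mkAut_X]
      exact (totalDegree_le_of_support (hFs i j)).trans (hg i)
    · obtain ⟨q, hq, hqs⟩ := lift_poly U k f
      classical
      refine ⟨max 1 f.totalDegree, fun j => if j = i then X i + q else X j, ?_, ?_⟩
      · intro j
        beta_reduce
        by_cases hj : j = i
        · subst hj
          rw [if_pos rfl, map_add, map_X, hq, h1]
        · rw [if_neg hj, map_X, h2 j hj]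
      · refine Filter.Eventually.of_forall fun j => ?_
        have hi : i ∉ (MvPolynomial.map (Pi.evalRingHom k j) q).vars :=
          vars_of_support (hqs j) hf
        let s : Fin N → MvPolynomial (Fin N) (k j) := fun l =>
          if l = i then MvPolynomial.map (Pi.evalRingHom k j) q else 0
        have hsh : ∀ l, shear (B := k j) {i} s (fun l hl => if_neg hl) (fun l => by
            simp only [s]
            split_ifs
            · rw [mem_supported]
              intro a ha hai
              rw [Set.mem_singleton_iff] at hai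
              subst hai
              exact hi ha
            · exact zero_mem _) (X l) = X l + s l := fun l => shear_X _ _ _ _ l
        refine ⟨_, ⟨[_], ?_, ?_, List.prod_singleton⟩, fun l => (hsh l).trans ?_⟩
        · rw [List.length_singleton]
          exact le_max_left _ _
        · intro g' hg'
          rw [List.mem_singleton] at hg'
          subst hg'
          right
          refine ⟨i, MvPolynomial.map (Pi.evalRingHom k j) q, ?_, hi, ?_, ?_⟩
          · exact (totalDegree_le_of_support (hqs j)).trans (le_max_right _ _)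
          · rw [hsh]
            simp [s]
          · intro l hl
            rw [hsh]
            simp only [s]
            rw [if_neg hl, add_zero]
        · simp only [s]
          by_cases hl : l = i
          · subst hl
            rw [if_pos rfl, if_pos rfl, map_add, map_X]
          · rw [if_neg hl, if_neg hl, map_X, add_zero]
  | one =>
    refine ⟨0, fun i => X i, fun i => by rw [map_X]; rfl, Filter.Eventually.of_forall fun j => ?_⟩
    exact ⟨1, Word.one, fun i => by rw [map_X]; rfl⟩
  | mul g g' hg hg' ihg ihg' =>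
    obtain ⟨c, F, hF, hw⟩ := ihg hg
    obtain ⟨c', F', hF', hw'⟩ := ihg' hg'
    refine ⟨c + c', fun i => aeval F (F' i), ?_, ?_⟩
    · intro i
      rw [map_aeval', hF']
      simp only [hF]
      rw [aut_apply]
      rfl
    · filter_upwards [hw, hw'] with j hj hj'
      obtain ⟨a, ha, haX⟩ := hj
      obtain ⟨a', ha', haX'⟩ := hj'
      refine ⟨a * a', ha.mul ha', fun i => ?_⟩
      rw [AlgEquiv.mul_apply, haX', map_aeval', ← aut_apply a]
      simp only [haX]
  | inv g hg ihg =>
    obtain ⟨c, F, hF, hw⟩ := ihg hg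
    choose G hG hGs using fun i => lift_poly U k (g⁻¹ (X i))
    refine ⟨c, G, hG, ?_⟩
    have h1 : ∀ᶠ j in (U : Filter ℕ), ∀ i, MvPolynomial.map (Pi.evalRingHom k j)
        (aeval F (G i)) = MvPolynomial.map (Pi.evalRingHom k j) (X i) := by
      rw [Filter.eventually_all]
      intro i
      apply ev_eq
      rw [map_aeval']
      simp only [hF, hG]
      rw [aut_apply, map_X]
      exact g.apply_symm_apply _
    filter_upwards [hw, h1] with j hj hj1
    obtain ⟨a, ha, haX⟩ := hj
    refine ⟨a⁻¹, ha.inv, fun i => ?_⟩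
    have h2 : a (MvPolynomial.map (Pi.evalRingHom k j) (G i)) = X i := by
      rw [← aut_apply a]
      simp only [haX]
      rw [← map_aeval', hj1, map_X]
    have h3 : a⁻¹ (X i) = MvPolynomial.map (Pi.evalRingHom k j) (G i) := by
      rw [← h2]
      exact a.symm_apply_apply _
    exact h3

end Transfer

section Main

/-- Bidegree at most `d`. -/
def Bideg {k : Type} [Field k] {n : ℕ} (d : ℕ)
    (φ : MvPolynomial (Fin n) k ≃ₐ[k] MvPolynomial (Fin n) k) : Prop :=
  ∀ i, (φ (X i)).totalDegree ≤ d ∧ (φ.symm (X i)).totalDegree ≤ d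

/-- Stable tameness. -/
def ST {k : Type} [Field k] {n : ℕ}
    (φ : MvPolynomial (Fin n) k ≃ₐ[k] MvPolynomial (Fin n) k) : Prop :=
  ∃ l : ℕ, 0 < l ∧ ∃ ψ ∈ Tame (Fin (n + l)) k,
    (∀ i : Fin n, ψ (X (Fin.castAdd l i)) = rename (Fin.castAdd l) (φ (X i))) ∧
    ∀ j : Fin l, ψ (X (Fin.natAdd n j)) = X (Fin.natAdd n j)

/-- Stable tameness of complexity at most `c`. -/
def STB {k : Type} [Field k] {n : ℕ} (c : ℕ)
    (φ : MvPolynomial (Fin n) k ≃ₐ[k] MvPolynomial (Fin n) k) : Prop :=
  ∃ l : ℕ, 0 < l ∧ l ≤ c ∧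
    ∃ ψ : MvPolynomial (Fin (n + l)) k ≃ₐ[k] MvPolynomial (Fin (n + l)) k, Word c ψ ∧
    (∀ i : Fin n, ψ (X (Fin.castAdd l i)) = rename (Fin.castAdd l) (φ (X i))) ∧
    ∀ j : Fin l, ψ (X (Fin.natAdd n j)) = X (Fin.natAdd n j)

theorem assemble (k : ℕ → Type) [∀ j, Field (k j)] {σ : Type} [Finite σ] (d : ℕ)
    (p : ∀ j, MvPolynomial σ (k j)) (hd : ∀ j, (p j).totalDegree ≤ d) :
    ∃ P : MvPolynomial σ (∀ j, k j), P.totalDegree ≤ d ∧
      ∀ j, MvPolynomial.map (Pi.evalRingHom k j) P = p j := by
  classical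
  let E : Finset (σ →₀ ℕ) := (Finsupp.finite_of_degree_le (σ := σ) d).toFinset
  have hE : ∀ m, m ∈ E ↔ m.degree ≤ d := fun m => by simp [E]
  refine ⟨∑ m ∈ E, monomial m (fun j => coeff m (p j)), ?_, ?_⟩
  · refine totalDegree_finsetSum_le (fun m hm => ?_)
    refine (totalDegree_monomial_le _ _).trans ?_
    exact (hE m).1 hm
  · intro j
    rw [map_sum]
    simp only [map_monomial]
    ext m
    rw [coeff_sum]
    simp only [coeff_monomial]
    rw [Finset.sum_ite_eq']
    split_ifs with hm
    · rfl
    · rw [hE] at hm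
      by_contra hne
      apply hm
      have h1 := le_totalDegree (mem_support_iff.2 (Ne.symm hne))
      exact h1.trans (hd j)

theorem joint_inj (k : ℕ → Type) [∀ j, Field (k j)] {σ : Type}
    {P Q : MvPolynomial σ (∀ j, k j)}
    (h : ∀ j, MvPolynomial.map (Pi.evalRingHom k j) P = MvPolynomial.map (Pi.evalRingHom k j) Q) :
    P = Q := by
  ext m j
  have := congrArg (coeff m) (h j)
  rwa [coeff_map, coeff_map] at this

theorem totalDegree_map_le' {R S : Type} [CommRing R] [CommRing S] (θ : R →+* S) {σ : Type}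
    (p : MvPolynomial σ R) : (MvPolynomial.map θ p).totalDegree ≤ p.totalDegree :=
  Finset.sup_mono (support_map_subset θ p)

/-- The compactness theorem. -/
theorem compactness (n d : ℕ) (S : Set ℕ) (hS : 0 ∈ S ∨ S.Finite)
    (h : ∀ (k : Type) [Field k], ringChar k ∈ S →
      ∀ φ : MvPolynomial (Fin n) k ≃ₐ[k] MvPolynomial (Fin n) k, Bideg d φ → ST φ) :
    ∃ c : ℕ, ∀ (k : Type) [Field k], (ringChar k ∈ S ∨ (0 ∈ S ∧ c ≤ ringChar k)) →
      ∀ φ : MvPolynomial (Fin n) k ≃ₐ[k] MvPolynomial (Fin n) k, Bideg d φ → STB c φ := by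
  by_contra hcon
  push Not at hcon
  choose k inst hk φ hφ hφn using hcon
  let U : Ultrafilter ℕ := hyperfilter ℕ
  let _ : ∀ j, Field (k j) := inst
  let _ := fieldKU U k
  choose P hPd hP using fun i => assemble k d (fun j => φ j (X i)) (fun j => (hφ j i).1)
  choose P' hPd' hP' using fun i => assemble k d (fun j => (φ j).symm (X i))
    (fun j => (hφ j i).2)
  have hPP' : ∀ i, aeval P (P' i) = X i := by
    intro i
    apply joint_inj k
    intro j
    rw [map_aeval', hP']
    simp only [hP]
    rw [aut_apply, map_X]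
    exact (φ j).apply_symm_apply _
  have hP'P : ∀ i, aeval P' (P i) = X i := by
    intro i
    apply joint_inj k
    intro j
    rw [map_aeval', hP]
    simp only [hP']
    rw [aut_apply (φ j).symm, map_X]
    exact (φ j).symm_apply_apply _
  let π := Ideal.Quotient.mk (IU U k)
  have e1 : ∀ i, aeval (fun i => MvPolynomial.map π (P i)) (MvPolynomial.map π (P' i)) =
      (X i : MvPolynomial (Fin n) (KU U k)) := by
    intro i
    rw [← map_aeval', hPP', map_X]
  have e2 : ∀ i, aeval (fun i => MvPolynomial.map π (P' i)) (MvPolynomial.map π (P i)) =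
      (X i : MvPolynomial (Fin n) (KU U k)) := by
    intro i
    rw [← map_aeval', hP'P, map_X]
  let φK : MvPolynomial (Fin n) (KU U k) ≃ₐ[KU U k] MvPolynomial (Fin n) (KU U k) :=
    mkAut _ _ e1 e2
  have hφK : ∀ i, φK (X i) = MvPolynomial.map π (P i) := fun i => mkAut_X _ _ _ _ i
  have hφK' : ∀ i, φK.symm (X i) = MvPolynomial.map π (P' i) := fun i => by
    have : φK (MvPolynomial.map π (P' i)) = X i := by
      rw [← aut_apply φK]
      simp only [hφK]
      exact e1 i
    rw [← this]
    exact φK.symm_apply_apply _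
  have hb : Bideg d φK := by
    intro i
    rw [hφK, hφK']
    exact ⟨(totalDegree_map_le' _ _).trans (hPd i), (totalDegree_map_le' _ _).trans (hPd' i)⟩
  have hchar : ringChar (KU U k) ∈ S := by
    by_cases hc : ringChar (KU U k) = 0
    · rw [hc]
      by_contra h0
      have hfin : S.Finite := hS.resolve_left h0
      let M : ℕ := ∏ p ∈ hfin.toFinset, p
      have hM : ∀ j, ((M : ℕ) : k j) = 0 := by
        intro j
        have hj : ringChar (k j) ∈ S := by
          rcases hk j with h1 | h1
          · exact h1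
          · exact absurd h1.1 h0
        have h2 : ringChar (k j) ∣ M :=
          Finset.dvd_prod_of_mem _ (hfin.mem_toFinset.2 hj)
        exact (ringChar.spec (k j) M).2 h2
      have hMK : ((M : ℕ) : KU U k) = 0 := by
        have h3 : ((M : ℕ) : ∀ j, k j) = 0 := by
          funext j
          exact hM j
        have h4 : ((M : ℕ) : KU U k) = Ideal.Quotient.mk (IU U k) ((M : ℕ) : ∀ j, k j) := by
          rw [map_natCast]
        rw [h4, h3, map_zero]
      have h5 := (ringChar.spec (KU U k) M).1 hMK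
      rw [hc, zero_dvd_iff, Finset.prod_eq_zero_iff] at h5
      obtain ⟨p, hp, hp0⟩ := h5
      rw [hfin.mem_toFinset] at hp
      rw [hp0] at hp
      exact h0 hp
    · have hprime : (ringChar (KU U k)).Prime :=
        (CharP.char_is_prime_or_zero (KU U k) (ringChar (KU U k))).resolve_right hc
      have h1 : ((ringChar (KU U k) : ℕ) : KU U k) = 0 := ringChar.Nat.cast_ringChar
      have h2 : ((ringChar (KU U k) : ℕ) : KU U k) =
          Ideal.Quotient.mk (IU U k) ((ringChar (KU U k) : ℕ) : ∀ j, k j) := by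
        rw [map_natCast]
      rw [h2, Ideal.Quotient.eq_zero_iff_mem, mem_IU] at h1
      have h3 : ∀ᶠ j in (U : Filter ℕ), ringChar (KU U k) < j :=
        (eventually_gt_atTop _).filter_mono Nat.hyperfilter_le_atTop
      obtain ⟨j, hj1, hj2⟩ := (h1.and h3).exists
      have h4 : ((ringChar (KU U k) : ℕ) : k j) = 0 := hj1
      have h5 : ringChar (k j) ∣ ringChar (KU U k) := (ringChar.spec (k j) _).1 h4
      have h6 : ringChar (k j) = ringChar (KU U k) := by
        rcases (Nat.dvd_prime hprime).1 h5 with h6 | h6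
        · exact absurd h6 (CharP.ringChar_ne_one)
        · exact h6
      rcases hk j with h7 | h7
      · rwa [h6] at h7
      · have := h7.2
        omega
  obtain ⟨l, hl, ψ, hψ, hψ1, hψ2⟩ := h (KU U k) hchar φK hb
  obtain ⟨c, F, hF, hw⟩ := transfer U k ψ hψ
  have f1 : ∀ᶠ j in (U : Filter ℕ), ∀ i : Fin n,
      MvPolynomial.map (Pi.evalRingHom k j) (F (Fin.castAdd l i)) =
      MvPolynomial.map (Pi.evalRingHom k j) (rename (Fin.castAdd l) (P i)) := by
    rw [Filter.eventually_all]
    intro i
    apply ev_eq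
    rw [hF, hψ1, hφK, map_rename]
  have f2 : ∀ᶠ j in (U : Filter ℕ), ∀ i : Fin l,
      MvPolynomial.map (Pi.evalRingHom k j) (F (Fin.natAdd n i)) =
      MvPolynomial.map (Pi.evalRingHom k j) (X (Fin.natAdd n i)) := by
    rw [Filter.eventually_all]
    intro i
    apply ev_eq
    rw [hF, hψ2, map_X]
  have f3 : ∀ᶠ j in (U : Filter ℕ), max l c < j :=
    (eventually_gt_atTop _).filter_mono Nat.hyperfilter_le_atTop
  obtain ⟨j, hj1, hj2, hj3, hj4⟩ := (hw.and (f1.and (f2.and f3))).exists
  obtain ⟨g, hg, hgX⟩ := hj1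
  apply hφn j
  refine ⟨l, hl, by omega, g, hg.mono (by omega), ?_, ?_⟩
  · intro i
    rw [hgX, hj2, map_rename, hP]
  · intro i
    rw [hgX, hj3, map_X]

end Main

end Run7.h464

namespace Run7.h464

section Iff

open MvPolynomial

theorem Gen.tame {k : Type} [Field k] {N c : ℕ}
    {g : MvPolynomial (Fin N) k ≃ₐ[k] MvPolynomial (Fin N) k} (h : Gen c g) :
    g ∈ Tame (Fin N) k := by
  rcases h with h | ⟨i, f, _, hi, h1, h2⟩
  · exact Tame.affine h
  · exact Tame.elem i f hi h1 h2

theorem Word.tame {k : Type} [Field k] {N c : ℕ}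
    {g : MvPolynomial (Fin N) k ≃ₐ[k] MvPolynomial (Fin N) k} (h : Word c g) :
    g ∈ Tame (Fin N) k := by
  obtain ⟨w, _, hw, rfl⟩ := h
  exact Subgroup.list_prod_mem _ fun x hx => (hw x hx).tame

theorem STB.st {k : Type} [Field k] {n c : ℕ}
    {φ : MvPolynomial (Fin n) k ≃ₐ[k] MvPolynomial (Fin n) k} (h : STB c φ) : ST φ := by
  obtain ⟨l, hl, _, ψ, hψ, h1, h2⟩ := h
  exact ⟨l, hl, ψ, hψ.tame, h1, h2⟩

/-- Stable tameness is equivalent to stable tameness with uniform bounds. -/
theorem compactness_iff (n d : ℕ) (S : Set ℕ) (hS : 0 ∈ S ∨ S.Finite) :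
    (∀ (k : Type) [Field k], ringChar k ∈ S →
      ∀ φ : MvPolynomial (Fin n) k ≃ₐ[k] MvPolynomial (Fin n) k, Bideg d φ → ST φ) ↔
    ∃ c : ℕ, ∀ (k : Type) [Field k], (ringChar k ∈ S ∨ (0 ∈ S ∧ c ≤ ringChar k)) →
      ∀ φ : MvPolynomial (Fin n) k ≃ₐ[k] MvPolynomial (Fin n) k, Bideg d φ → STB c φ :=
  ⟨compactness n d S hS, fun ⟨_, h⟩ k _ hk φ hφ => (h k (Or.inl hk) φ hφ).st⟩

end Iff

end Run7.h464
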