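import Mathlib

set_option autoImplicit false

open Matrix

namespace Run7.h464

section El

variable {R : Type*} [CommRing R]
variable {ι κ μ : Type*} [Fintype ι] [DecidableEq ι] [Fintype κ] [DecidableEq κ]
  [Fintype μ] [DecidableEq μ]

/-- The submonoid (in fact a group) generated by the elementary transvections. -/
def El (ι R : Type*) [CommRing R] [Fintype ι] [DecidableEq ι] : Submonoid (Matrix ι ι R) :=
  Submonoid.closure {M | ∃ (i j : ι) (c : R), i ≠ j ∧ M = transvection i j c}

/-- Membership in `El`. -/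
def IsEl (M : Matrix ι ι R) : Prop := M ∈ El ι R

theorem IsEl.mul {M N : Matrix ι ι R} (hM : IsEl M) (hN : IsEl N) : IsEl (M * N) :=
  (El ι R).mul_mem hM hN

theorem IsEl.one : IsEl (1 : Matrix ι ι R) := (El ι R).one_mem

theorem IsEl.transv {i j : ι} (h : i ≠ j) (c : R) : IsEl (transvection i j c) :=
  Submonoid.subset_closure ⟨i, j, c, h, rfl⟩

theorem IsEl.exists_inv {M : Matrix ι ι R} (h : IsEl M) :
    ∃ N, IsEl N ∧ M * N = 1 ∧ N * M = 1 := by
  induction h using Submonoid.closure_induction with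
  | mem x hx =>
    obtain ⟨i, j, c, hij, rfl⟩ := hx
    refine ⟨transvection i j (-c), IsEl.transv hij _, ?_, ?_⟩
    · rw [transvection_mul_transvection_same i j hij, add_neg_cancel, transvection_zero]
    · rw [transvection_mul_transvection_same i j hij, neg_add_cancel, transvection_zero]
  | one => exact ⟨1, IsEl.one, by simp, by simp⟩
  | mul x y hx hy ihx ihy =>
    obtain ⟨a, ha, ha1, ha2⟩ := ihx
    obtain ⟨b, hb, hb1, hb2⟩ := ihy
    refine ⟨b * a, IsEl.mul hb ha, ?_, ?_⟩
    · rw [Matrix.mul_assoc, ← Matrix.mul_assoc y, hb1, Matrix.one_mul, ha1]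
    · rw [Matrix.mul_assoc, ← Matrix.mul_assoc a, ha2, Matrix.one_mul, hb2]

theorem IsEl.of_mul_left {M N : Matrix ι ι R} (h : IsEl (M * N)) (hN : IsEl N) :
    IsEl M := by
  obtain ⟨a, ha, ha1, ha2⟩ := hN.exists_inv
  have := IsEl.mul h ha
  rwa [Matrix.mul_assoc, ha1, Matrix.mul_one] at this

theorem IsEl.of_mul_right {M N : Matrix ι ι R} (h : IsEl (M * N)) (hM : IsEl M) :
    IsEl N := by
  obtain ⟨a, ha, ha1, ha2⟩ := hM.exists_inv
  have := IsEl.mul ha h
  rwa [← Matrix.mul_assoc, ha2, Matrix.one_mul] at this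

theorem IsEl.reindex (e : ι ≃ κ) {M : Matrix ι ι R} (h : IsEl M) :
    IsEl (M.submatrix e.symm e.symm) := by
  induction h using Submonoid.closure_induction with
  | mem x hx =>
    obtain ⟨i, j, c, hij, rfl⟩ := hx
    have : (transvection i j c).submatrix e.symm e.symm = transvection (e i) (e j) c := by
      ext a b
      simp only [transvection, submatrix_apply, Matrix.add_apply, one_apply, single_apply]
      have h1 : (e.symm a = e.symm b) = (a = b) := by simp
      have h2 : (i = e.symm a) = (e i = a) := by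
        rw [Equiv.eq_symm_apply]
      have h3 : (j = e.symm b) = (e j = b) := by
        rw [Equiv.eq_symm_apply]
      simp only [h1, h2, h3]
    rw [this]
    exact IsEl.transv (by simpa using hij) c
  | one => simpa [submatrix_one_equiv] using IsEl.one
  | mul x y hx hy ihx ihy =>
    rw [submatrix_mul _ _ _ _ _ e.symm.bijective]
    exact IsEl.mul ihx ihy

theorem IsEl.blockL {M : Matrix ι ι R} (h : IsEl M) :
    IsEl (fromBlocks M 0 0 (1 : Matrix κ κ R)) := by
  induction h using Submonoid.closure_induction with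
  | mem x hx =>
    obtain ⟨i, j, c, hij, rfl⟩ := hx
    have : fromBlocks (transvection i j c) 0 0 (1 : Matrix κ κ R)
        = transvection (Sum.inl i) (Sum.inl j) c := by
      ext (a | a) (b | b) <;>
      simp [transvection, fromBlocks, one_apply, single_apply]
    rw [this]
    exact IsEl.transv (by simpa using hij) c
  | one => rw [fromBlocks_one]; exact IsEl.one
  | mul x y hx hy ihx ihy =>
    have : fromBlocks (x * y) 0 0 (1 : Matrix κ κ R) =
      fromBlocks x 0 0 (1 : Matrix κ κ R) * fromBlocks y 0 0 (1 : Matrix κ κ R) := by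
      simp [fromBlocks_multiply]
    rw [this]
    exact IsEl.mul ihx ihy

theorem IsEl.blockR {M : Matrix κ κ R} (h : IsEl M) :
    IsEl (fromBlocks (1 : Matrix ι ι R) 0 0 M) := by
  have := (h.blockL (κ := ι)).reindex (Equiv.sumComm κ ι)
  convert this using 1
  ext (a | a) (b | b) <;> simp

theorem IsEl.blockDiag {M : Matrix ι ι R} {N : Matrix κ κ R} (hM : IsEl M) (hN : IsEl N) :
    IsEl (fromBlocks M 0 0 N) := by
  have : fromBlocks M 0 0 N = fromBlocks M 0 0 1 * fromBlocks 1 0 0 N := by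
    simp [fromBlocks_multiply]
  rw [this]
  exact IsEl.mul hM.blockL hN.blockR

theorem IsEl.upper (B : Matrix ι κ R) : IsEl (fromBlocks 1 B 0 1) := by
  have key : ∀ s : Finset (ι × κ),
      IsEl (fromBlocks (1 : Matrix ι ι R) (∑ p ∈ s, single p.1 p.2 (B p.1 p.2)) 0
        (1 : Matrix κ κ R)) := by
    intro s
    induction s using Finset.induction_on with
    | empty => simpa using IsEl.one
    | insert p s hp ih =>
      rw [Finset.sum_insert hp]
      have : fromBlocks 1 (single p.1 p.2 (B p.1 p.2) + ∑ p ∈ s, single p.1 p.2 (B p.1 p.2)) 0 1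
        = transvection (Sum.inl p.1) (Sum.inr p.2) (B p.1 p.2) *
          fromBlocks (1 : Matrix ι ι R) (∑ p ∈ s, single p.1 p.2 (B p.1 p.2)) 0
            (1 : Matrix κ κ R) := by
        have h1 : transvection (Sum.inl p.1) (Sum.inr p.2) (B p.1 p.2) =
          fromBlocks (1 : Matrix ι ι R) (single p.1 p.2 (B p.1 p.2)) 0 (1 : Matrix κ κ R) := by
          ext (a | a) (b | b) <;> simp [transvection, fromBlocks, one_apply, single_apply]
        rw [h1]
        simp [fromBlocks_multiply, add_comm]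
      rw [this]
      exact IsEl.mul (IsEl.transv (by simp) _) ih
  have h2 : B = ∑ p ∈ (Finset.univ : Finset (ι × κ)), single p.1 p.2 (B p.1 p.2) := by
    conv_lhs => rw [matrix_eq_sum_single B]
    rw [← Finset.univ_product_univ, Finset.sum_product]
  rw [h2]
  exact key _

theorem IsEl.lower (B : Matrix κ ι R) : IsEl (fromBlocks 1 0 B 1) := by
  have := (IsEl.upper (R := R) B).reindex (Equiv.sumComm κ ι)
  convert this using 1
  ext (a | a) (b | b) <;> simp [one_apply]

theorem IsEl.map {S : Type*} [CommRing S] (f : R →+* S) {M : Matrix ι ι R} (h : IsEl M) :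
    IsEl (M.map f) := by
  induction h using Submonoid.closure_induction with
  | mem x hx =>
    obtain ⟨i, j, c, hij, rfl⟩ := hx
    have : (transvection i j c).map f = transvection i j (f c) := by
      ext a b
      simp only [transvection, map_apply, Matrix.add_apply, one_apply, single_apply, map_add]
      congr 1
      · split_ifs <;> simp
      · split_ifs <;> simp
    rw [this]
    exact IsEl.transv hij _
  | one => rw [Matrix.map_one _ (map_zero f) (map_one f)]; exact IsEl.one
  | mul x y hx hy ihx ihy =>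
    rw [Matrix.map_mul]
    exact IsEl.mul ihx ihy

/-- Whitehead's lemma. -/
theorem IsEl.whitehead {g h : Matrix ι ι R} (hgh : g * h = 1) (hhg : h * g = 1) :
    IsEl (fromBlocks g 0 0 h) := by
  have : fromBlocks g 0 0 h =
      (fromBlocks 1 g 0 1 * fromBlocks 1 0 (-h) 1 * fromBlocks 1 g 0 1) *
      (fromBlocks 1 (-1) 0 1 * fromBlocks 1 0 1 1 * fromBlocks 1 (-1) 0 1) := by
    simp [fromBlocks_multiply, hgh, hhg]
  rw [this]
  refine IsEl.mul (IsEl.mul (IsEl.mul ?_ ?_) ?_) (IsEl.mul (IsEl.mul ?_ ?_) ?_)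
  · exact IsEl.upper _
  · exact IsEl.lower _
  · exact IsEl.upper _
  · exact IsEl.upper _
  · exact IsEl.lower _
  · exact IsEl.upper _

end El

section SE

variable {R : Type*} [CommRing R]
variable {ι κ μ : Type} [Fintype ι] [DecidableEq ι] [Fintype κ] [DecidableEq κ]
  [Fintype μ] [DecidableEq μ]

/-- Stably elementary matrices. -/
def SE (M : Matrix ι ι R) : Prop :=
  ∃ (κ : Type) (_ : Fintype κ) (_ : DecidableEq κ),
    IsEl (fromBlocks M 0 0 (1 : Matrix κ κ R))

theorem SE.of_El {M : Matrix ι ι R} (h : IsEl M) : SE M :=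
  ⟨PUnit, inferInstance, inferInstance, h.blockL⟩

theorem SE.one : SE (1 : Matrix ι ι R) := SE.of_El (IsEl.one)

theorem IsEl.assoc {M : Matrix ι ι R} (h : IsEl (fromBlocks M 0 0 (1 : Matrix κ κ R))) :
    IsEl (fromBlocks M 0 0 (1 : Matrix (κ ⊕ μ) (κ ⊕ μ) R)) := by
  have := (h.blockL (κ := μ)).reindex (Equiv.sumAssoc ι κ μ)
  convert this using 1
  ext (a | a | a) (b | b | b) <;> simp [one_apply]

theorem IsEl.assoc' {M : Matrix ι ι R} (h : IsEl (fromBlocks M 0 0 (1 : Matrix κ κ R))) :
    IsEl (fromBlocks M 0 0 (1 : Matrix (μ ⊕ κ) (μ ⊕ κ) R)) := by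
  have := (h.assoc (μ := μ)).reindex (Equiv.sumCongr (Equiv.refl ι) (Equiv.sumComm κ μ))
  convert this using 1
  ext (a | a | a) (b | b | b) <;> simp [one_apply]

theorem SE.common {M : Matrix ι ι R} {N : Matrix μ μ R} (hM : SE M) (hN : SE N) :
    ∃ (κ : Type) (_ : Fintype κ) (_ : DecidableEq κ),
      IsEl (fromBlocks M 0 0 (1 : Matrix κ κ R)) ∧
      IsEl (fromBlocks N 0 0 (1 : Matrix κ κ R)) := by
  obtain ⟨a, _, _, ha⟩ := hM
  obtain ⟨b, _, _, hb⟩ := hN
  exact ⟨a ⊕ b, inferInstance, inferInstance, ha.assoc, hb.assoc'⟩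

theorem SE.mul {M N : Matrix ι ι R} (hM : SE M) (hN : SE N) : SE (M * N) := by
  obtain ⟨κ, _, _, h1, h2⟩ := hM.common hN
  refine ⟨κ, inferInstance, inferInstance, ?_⟩
  have := IsEl.mul h1 h2
  simpa [fromBlocks_multiply] using this

theorem SE.of_mul_left {M N : Matrix ι ι R} (hM : SE (M * N)) (hN : SE N) : SE M := by
  obtain ⟨κ, _, _, h1, h2⟩ := hM.common hN
  refine ⟨κ, inferInstance, inferInstance, IsEl.of_mul_left ?_ h2⟩
  simpa [fromBlocks_multiply] using h1

theorem SE.of_mul_right {M N : Matrix ι ι R} (hM : SE (M * N)) (hN : SE M) : SE N := by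
  obtain ⟨κ, _, _, h1, h2⟩ := hM.common hN
  refine ⟨κ, inferInstance, inferInstance, IsEl.of_mul_right ?_ h2⟩
  simpa [fromBlocks_multiply] using h1

theorem SE.inv {M N : Matrix ι ι R} (hM : SE M) (h : M * N = 1) : SE N :=
  SE.of_mul_right (by rw [h]; exact SE.one) hM

theorem SE.reindex (e : ι ≃ μ) {M : Matrix ι ι R} (h : SE M) :
    SE (M.submatrix e.symm e.symm) := by
  obtain ⟨κ, _, _, h⟩ := h
  refine ⟨κ, inferInstance, inferInstance, ?_⟩
  have := h.reindex (Equiv.sumCongr e (Equiv.refl κ))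
  convert this using 1
  ext (a | a) (b | b) <;> simp

theorem SE.reindex_iff (e : ι ≃ μ) {M : Matrix ι ι R} :
    SE (M.submatrix e.symm e.symm) ↔ SE M := by
  refine ⟨fun h => ?_, fun h => h.reindex e⟩
  have := h.reindex e.symm
  simpa using this

theorem SE.blockL_iff {M : Matrix ι ι R} :
    SE (fromBlocks M 0 0 (1 : Matrix μ μ R)) ↔ SE M := by
  constructor
  · rintro ⟨κ, _, _, h⟩
    refine ⟨μ ⊕ κ, inferInstance, inferInstance, ?_⟩
    have := h.reindex (Equiv.sumAssoc ι μ κ)
    convert this using 1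
    ext (a | a | a) (b | b | b) <;> simp [one_apply]
  · rintro ⟨κ, _, _, h⟩
    refine ⟨κ, inferInstance, inferInstance, ?_⟩
    have := (h.assoc' (μ := μ)).reindex (Equiv.sumAssoc ι μ κ).symm
    convert this using 1
    ext ((a | a) | a) ((b | b) | b) <;> simp [one_apply]

theorem SE.blockR_iff {M : Matrix ι ι R} :
    SE (fromBlocks (1 : Matrix μ μ R) 0 0 M) ↔ SE M := by
  rw [← SE.blockL_iff (μ := μ) (M := M), ← SE.reindex_iff (Equiv.sumComm ι μ)]
  have : (fromBlocks M 0 0 (1 : Matrix μ μ R)).submatrix (Equiv.sumComm ι μ).symm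
      (Equiv.sumComm ι μ).symm = fromBlocks (1 : Matrix μ μ R) 0 0 M := by
    ext (a | a) (b | b) <;> simp
  rw [this]

theorem SE.map {S : Type*} [CommRing S] (f : R →+* S) {M : Matrix ι ι R} (h : SE M) :
    SE (M.map f) := by
  obtain ⟨κ, _, _, h⟩ := h
  refine ⟨κ, inferInstance, inferInstance, ?_⟩
  have := h.map f
  rw [fromBlocks_map] at this
  simpa [Matrix.map_one _ (map_zero f) (map_one f)] using this

theorem SE.conj {M g h : Matrix ι ι R} (hgh : g * h = 1) (hhg : h * g = 1) (hM : SE M) :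
    SE (g * M * h) := by
  rw [← SE.blockL_iff (μ := ι)]
  have : fromBlocks (g * M * h) 0 0 (1 : Matrix ι ι R) =
      fromBlocks g 0 0 h * fromBlocks M 0 0 1 * fromBlocks h 0 0 g := by
    simp [fromBlocks_multiply, hhg]
  rw [this]
  exact ((SE.of_El (IsEl.whitehead hgh hhg)).mul (SE.blockL_iff.2 hM)).mul
    (SE.of_El (IsEl.whitehead hhg hgh))

theorem blocks_eq (A : Matrix ι ι R) (B : Matrix ι κ R) (D : Matrix κ κ R) :
    fromBlocks A B 0 D = fromBlocks 1 0 0 D * fromBlocks 1 B 0 1 * fromBlocks A 0 0 1 := by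
  simp [fromBlocks_multiply]

theorem SE.blocks {A : Matrix ι ι R} (B : Matrix ι κ R) {D : Matrix κ κ R}
    (hA : SE A) (hD : SE D) : SE (fromBlocks A B 0 D) := by
  rw [blocks_eq]
  exact ((SE.blockR_iff.2 hD).mul (SE.of_El (IsEl.upper B))).mul (SE.blockL_iff.2 hA)

theorem SE.blocks_left {A : Matrix ι ι R} {B : Matrix ι κ R} {D : Matrix κ κ R}
    (h : SE (fromBlocks A B 0 D)) (hD : SE D) : SE A := by
  rw [blocks_eq] at h
  exact SE.blockL_iff.1 (h.of_mul_right ((SE.blockR_iff.2 hD).mul (SE.of_El (IsEl.upper B))))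

theorem SE.blocks_right {A : Matrix ι ι R} {B : Matrix ι κ R} {D : Matrix κ κ R}
    (h : SE (fromBlocks A B 0 D)) (hA : SE A) : SE D := by
  rw [blocks_eq] at h
  exact SE.blockR_iff.1 ((h.of_mul_left (SE.blockL_iff.2 hA)).of_mul_left
    (SE.of_El (IsEl.upper B)))

end SE

end Run7.h464
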