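import Pool.Agent.Run7.h464.Res

set_option autoImplicit false

open Matrix Polynomial

noncomputable section

namespace Run7.h464

section Higman

variable {R : Type} [CommRing R]
variable {ι κ μ : Type} [Fintype ι] [DecidableEq ι] [Fintype κ] [DecidableEq κ]
  [Fintype μ] [DecidableEq μ]

theorem map_inv_of {S T : Type} [CommRing S] [CommRing T] (f : S →+* T) {A B : Matrix ι ι S}
    (h : A * B = 1) : A.map f * B.map f = 1 := by
  rw [← Matrix.map_mul, h, Matrix.map_one _ (map_zero f) (map_one f)]

theorem nilp_of_L {N : Matrix ι ι R} {γ : Matrix ι ι R[X]} (h : L N * γ = 1) :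
    ∃ k, N ^ k = 0 := by
  have h0 : ∀ m : ℕ, γ.map (fun p => p.coeff (m + 1)) + N * γ.map (fun p => p.coeff m) = 0 := by
    intro m
    have h1 := congrArg (fun M : Matrix ι ι R[X] => M.map (fun p => p.coeff (m + 1))) h
    simp only [L, Matrix.add_mul, Matrix.one_mul] at h1
    rw [Matrix.smul_mul] at h1
    ext i j
    have h2 := congrFun (congrFun h1 i) j
    simp only [Matrix.map_apply, Matrix.add_apply, coeff_add, Matrix.smul_apply, smul_eq_mul,
      Matrix.mul_apply, Matrix.zero_apply] at h2 ⊢
    rw [coeff_X_mul, finsetSum_coeff] at h2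
    simp only [coeff_C_mul] at h2
    rw [h2, one_apply]
    split_ifs
    · rw [coeff_one]; simp
    · simp
  have h00 : γ.map (fun p => p.coeff 0) = 1 := by
    have h1 := congrArg (fun M : Matrix ι ι R[X] => M.map (fun p => p.coeff 0)) h
    simp only [L, Matrix.add_mul, Matrix.one_mul] at h1
    rw [Matrix.smul_mul] at h1
    ext i j
    have h2 := congrFun (congrFun h1 i) j
    simp only [Matrix.map_apply, Matrix.add_apply, coeff_add, Matrix.smul_apply, smul_eq_mul] at h2 ⊢
    rw [mul_coeff_zero, coeff_X_zero, zero_mul, add_zero] at h2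
    rw [h2, one_apply, one_apply]
    split_ifs <;> simp
  have h1 : ∀ m : ℕ, γ.map (fun p => p.coeff m) = (-N) ^ m := by
    intro m
    induction m with
    | zero => rw [h00, pow_zero]
    | succ m ih =>
      have := h0 m
      rw [ih] at this
      rw [pow_succ', eq_neg_of_add_eq_zero_left this, Matrix.neg_mul]
  obtain ⟨k, hk⟩ : ∃ k, ∀ i j, (γ i j).natDegree < k := by
    refine ⟨(∑ i, ∑ j, (γ i j).natDegree) + 1, fun i j => ?_⟩
    have h2 : (γ i j).natDegree ≤ ∑ j, (γ i j).natDegree :=
      Finset.single_le_sum (f := fun j => (γ i j).natDegree) (fun _ _ => Nat.zero_le _)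
        (Finset.mem_univ j)
    have h3 : ∑ j, (γ i j).natDegree ≤ ∑ i, ∑ j, (γ i j).natDegree :=
      Finset.single_le_sum (f := fun i => ∑ j, (γ i j).natDegree) (fun _ _ => Nat.zero_le _)
        (Finset.mem_univ i)
    omega
  refine ⟨k, ?_⟩
  have h4 : (-N) ^ k = 0 := by
    rw [← h1]
    ext i j
    exact coeff_eq_zero_of_natDegree_lt (hk i j)
  rw [← neg_neg N, neg_pow, h4, mul_zero]

/-- `α` is stably elementary up to its constant term. -/
def H (α : Matrix ι ι R[X]) : Prop :=
  ∀ β : Matrix ι ι R, α.map (evalRingHom 0) * β = 1 → SE (α * β.map C)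

theorem H.of_mul {α e e' : Matrix ι ι R[X]} (he : IsEl e) (he' : IsEl e')
    (h : H (e * α * e')) : H α := by
  intro β hβ
  have hβ' : β * α.map (evalRingHom 0) = 1 := mul_eq_one_comm.1 hβ
  have hCC : ∀ M : Matrix ι ι R, M.map C = M.map (C : R →+* R[X]) := fun _ => rfl
  obtain ⟨f, hf, hf1, hf2⟩ := he.exists_inv
  obtain ⟨f', hf', hf1', hf2'⟩ := he'.exists_inv
  set ev : R[X] →+* R := evalRingHom 0
  have h1 := h ((f'.map ev) * β * (f.map ev)) (by
    rw [Matrix.map_mul, Matrix.map_mul]
    calc e.map ev * α.map ev * e'.map ev * (f'.map ev * β * f.map ev)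
        = e.map ev * (α.map ev * (e'.map ev * f'.map ev) * β) * f.map ev := by
          simp only [Matrix.mul_assoc]
      _ = 1 := by
          rw [map_inv_of ev hf1', Matrix.mul_one, hβ, Matrix.mul_one, map_inv_of ev hf1])
  rw [hCC, Matrix.map_mul, Matrix.map_mul] at h1
  have h2 : SE (e * (α * (e' * (f'.map ev).map (C : R →+* R[X])) * β.map (C : R →+* R[X])) *
      (f.map ev).map (C : R →+* R[X])) := by
    simpa only [Matrix.mul_assoc] using h1
  have h3 := (h2.of_mul_left (SE.of_El ((hf.map ev).map C))).of_mul_right (SE.of_El he)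
  have h4 : SE (e' * (f'.map ev).map (C : R →+* R[X])) :=
    SE.of_El (he'.mul ((hf'.map ev).map C))
  have h5 := h4.conj (g := (α.map ev).map (C : R →+* R[X])) (h := β.map (C : R →+* R[X]))
    (map_inv_of _ hβ) (map_inv_of _ hβ')
  have h6 : α * (e' * (f'.map ev).map (C : R →+* R[X])) * β.map (C : R →+* R[X]) =
      (α * β.map C) * ((α.map ev).map (C : R →+* R[X]) *
        (e' * (f'.map ev).map (C : R →+* R[X])) * β.map (C : R →+* R[X])) := by
    calc α * (e' * (f'.map ev).map (C : R →+* R[X])) * β.map (C : R →+* R[X])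
        = α * (β.map (C : R →+* R[X]) * (α.map ev).map (C : R →+* R[X])) *
          (e' * (f'.map ev).map (C : R →+* R[X])) * β.map (C : R →+* R[X]) := by
          rw [map_inv_of _ hβ', Matrix.mul_one]
      _ = _ := by simp only [Matrix.mul_assoc]
  rw [h6] at h3
  exact h3.of_mul_left h5

theorem H.of_block {α : Matrix ι ι R[X]}
    (h : H (fromBlocks α 0 0 (1 : Matrix κ κ R[X]))) : H α := by
  intro β hβ
  have h1 := h (fromBlocks β 0 0 1) (by
    rw [fromBlocks_map, fromBlocks_multiply]
    simp only [Matrix.map_zero, map_zero, Matrix.mul_zero, Matrix.zero_mul, add_zero,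
      zero_add, hβ]
    rw [Matrix.map_one _ (map_zero _) (map_one _), Matrix.mul_one, fromBlocks_one])
  rw [fromBlocks_map, fromBlocks_multiply] at h1
  simp only [Matrix.map_zero, map_zero, Matrix.mul_zero, Matrix.zero_mul, add_zero,
      zero_add] at h1
  rw [Matrix.map_one _ (map_zero _) (map_one _), Matrix.mul_one] at h1
  exact SE.blockL_iff.1 h1

open Pool.Agent.H158R3 in
theorem H_linear [IsNoetherianRing R] (hQS : BQ.IdemFree R) (d : ℕ) (hd : ∀ (N : Type)
    [AddCommGroup N] [Module R N], PdLT R N (d + 1)) {α γ : Matrix ι ι R[X]}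
    (hγ : α * γ = 1) (hdeg : ∀ i j, (α i j).natDegree ≤ 1) : H α := by
  intro β hβ
  have h1 : α * β.map C = L (α.map (fun p => p.coeff 1) * β) := by
    have h2 : α = (α.map (evalRingHom 0)).map (C : R →+* R[X]) +
        (X : R[X]) • (α.map (fun p => p.coeff 1)).map C := by
      ext i j : 1
      have h3 := eq_X_add_C_of_natDegree_le_one (hdeg i j)
      simp only [Matrix.add_apply, Matrix.map_apply, Matrix.smul_apply, smul_eq_mul,
        coe_evalRingHom]
      rw [← coeff_zero_eq_eval_zero]
      conv_lhs => rw [h3]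
      ring
    have h5 : β.map C = β.map (C : R →+* R[X]) := rfl
    conv_lhs => rw [h2]
    rw [Matrix.add_mul, Matrix.smul_mul, h5, map_inv_of _ hβ]
    have h4 : (α.map (fun p => p.coeff 1)).map C * β.map (C : R →+* R[X]) =
      (α.map (fun p => p.coeff 1) * β).map C :=
      (Matrix.map_mul (f := (C : R →+* R[X]))).symm
    rw [h4]
    rfl
  rw [h1]
  obtain ⟨k, hk⟩ : ∃ k, (α.map (fun p => p.coeff 1) * β) ^ k = 0 := by
    apply nilp_of_L (γ := (α.map (evalRingHom 0)).map C * γ)
    rw [← h1]
    have h6 : β * α.map (evalRingHom 0) = 1 := mul_eq_one_comm.1 hβ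
    have h7 := map_inv_of (C : R →+* R[X]) h6
    calc α * β.map C * ((α.map (evalRingHom 0)).map C * γ)
        = α * (β.map C * (α.map (evalRingHom 0)).map C) * γ := by simp only [Matrix.mul_assoc]
      _ = 1 := by rw [h7, Matrix.mul_one, hγ]
  exact nil_SE hQS d hd _ k hk

open Pool.Agent.H158R3 in
theorem H_of_deg [IsNoetherianRing R] (hQS : BQ.IdemFree R) (d : ℕ) (hd : ∀ (N : Type)
    [AddCommGroup N] [Module R N], PdLT R N (d + 1)) (m : ℕ) :
    ∀ {ι : Type} [Fintype ι] [DecidableEq ι] {α γ : Matrix ι ι R[X]}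
    (_ : α * γ = 1) (_ : ∀ i j, (α i j).natDegree ≤ m + 1), H α := by
  induction m with
  | zero =>
    intro ι _ _ α γ hγ hdeg
    exact H_linear hQS d hd hγ hdeg
  | succ m ih =>
    intro ι _ _ α γ hγ hdeg
    let B : Matrix ι ι R[X] := α.map divX
    let α' : Matrix (ι ⊕ ι) (ι ⊕ ι) R[X] :=
      fromBlocks 1 B 0 1 * fromBlocks α 0 0 1 * fromBlocks 1 0 (-(X : R[X]) • 1) 1
    have hα' : α' = fromBlocks (α.map (fun p => C (p.coeff 0))) B (-(X : R[X]) • 1) 1 := by
      simp only [α', fromBlocks_multiply]
      congr 1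
      · ext i j : 1
        simp only [Matrix.mul_one, Matrix.mul_zero, Matrix.zero_mul, add_zero, zero_add,
          Matrix.one_mul, Matrix.mul_smul, Matrix.add_apply, Matrix.smul_apply, smul_eq_mul, B,
          Matrix.map_apply]
        have := divX_mul_X_add (α i j)
        linear_combination -this
      · simp
      · simp
      · simp
    have hinv : ∃ γ', α' * γ' = 1 := by
      refine ⟨fromBlocks 1 0 ((X : R[X]) • 1) 1 * fromBlocks γ 0 0 1 * fromBlocks 1 (-B) 0 1, ?_⟩
      have e1 : fromBlocks (1 : Matrix ι ι R[X]) 0 (-(X : R[X]) • 1) (1 : Matrix ι ι R[X]) *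
        fromBlocks 1 0 ((X : R[X]) • 1) 1 = 1 := by
        rw [fromBlocks_multiply, ← fromBlocks_one]
        congr 1 <;> simp
      have e2 : fromBlocks α 0 0 (1 : Matrix ι ι R[X]) * fromBlocks γ 0 0 1 = 1 := by
        rw [fromBlocks_multiply, ← fromBlocks_one]
        congr 1 <;> simp [hγ]
      have e3 : fromBlocks (1 : Matrix ι ι R[X]) B 0 (1 : Matrix ι ι R[X]) *
        fromBlocks 1 (-B) 0 1 = 1 := by
        rw [fromBlocks_multiply, ← fromBlocks_one]
        congr 1 <;> simp
      calc α' * (fromBlocks 1 0 ((X : R[X]) • 1) 1 * fromBlocks γ 0 0 1 * fromBlocks 1 (-B) 0 1)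
          = fromBlocks 1 B 0 1 * (fromBlocks α 0 0 1 *
            (fromBlocks 1 0 (-(X : R[X]) • 1) 1 * fromBlocks 1 0 ((X : R[X]) • 1) 1) *
            fromBlocks γ 0 0 1) * fromBlocks 1 (-B) 0 1 := by
            simp only [α', Matrix.mul_assoc]
        _ = 1 := by rw [e1, Matrix.mul_one, e2, Matrix.mul_one, e3]
    obtain ⟨γ', hγ'⟩ := hinv
    have h1 : H α' := by
      apply ih hγ'
      rw [hα']
      rintro (i | i) (j | j)
      · simp
      · simp only [fromBlocks_apply₁₂, B, Matrix.map_apply]
        rw [natDegree_divX_eq_natDegree_tsub_one]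
        have := hdeg i j
        omega
      · simp only [fromBlocks_apply₂₁, Matrix.smul_apply, smul_eq_mul, one_apply]
        split_ifs
        · rw [mul_one, natDegree_neg]
          exact natDegree_X_le.trans (by omega)
        · simp
      · simp only [fromBlocks_apply₂₂, one_apply]
        split_ifs <;> simp
    exact H.of_block (H.of_mul (IsEl.upper B) (IsEl.lower _) h1)

open Pool.Agent.H158R3 in
/-- The stable group of invertible matrices over `R[X]` is that of `R` up to elementary
matrices. -/
theorem K1_poly [IsNoetherianRing R] (hQS : BQ.IdemFree R) (d : ℕ) (hd : ∀ (N : Type)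
    [AddCommGroup N] [Module R N], PdLT R N (d + 1)) {α γ : Matrix ι ι R[X]}
    (hγ : α * γ = 1) : H α := by
  refine H_of_deg hQS d hd (∑ i, ∑ j, (α i j).natDegree) hγ (fun i j => ?_)
  have h2 : (α i j).natDegree ≤ ∑ j, (α i j).natDegree :=
    Finset.single_le_sum (f := fun j => (α i j).natDegree) (fun _ _ => Nat.zero_le _)
      (Finset.mem_univ j)
  have h3 : ∑ j, (α i j).natDegree ≤ ∑ i, ∑ j, (α i j).natDegree :=
    Finset.single_le_sum (f := fun i => ∑ j, (α i j).natDegree) (fun _ _ => Nat.zero_le _)
      (Finset.mem_univ i)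
  omega

/-- Stable form of Suslin's theorem: over `k[x_1..x_n]` every invertible matrix is, up to its
value at the origin, stably a product of transvections. -/
theorem stable_suslin (k : Type) [Field k] (n : ℕ) : ∀ {ι : Type} [Fintype ι] [DecidableEq ι]
    {α γ : Matrix ι ι (MvPolynomial (Fin n) k)} (_ : α * γ = 1) (β : Matrix ι ι k)
    (_ : α.map MvPolynomial.constantCoeff * β = 1), SE (α * β.map MvPolynomial.C) := by
  induction n with
  | zero =>
    intro ι _ _ α γ _ β hβ
    have h1 : α = (α.map MvPolynomial.constantCoeff).map MvPolynomial.C := by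
      ext i j : 1
      simp only [Matrix.map_apply]
      exact (MvPolynomial.eq_C_of_isEmpty (α i j))
    have h2 : β.map MvPolynomial.C = β.map (MvPolynomial.C (σ := Fin 0) : k →+* _) := rfl
    rw [h1, h2, map_inv_of _ hβ]
    exact SE.one
  | succ n ih =>
    intro ι _ _ α γ hγ β hβ
    let e := MvPolynomial.finSuccEquiv k n
    let e' : MvPolynomial (Fin (n + 1)) k →+* Polynomial (MvPolynomial (Fin n) k) := e.toRingEquiv
    let f' : Polynomial (MvPolynomial (Fin n) k) →+* MvPolynomial (Fin (n + 1)) k :=
      e.symm.toRingEquiv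
    let ev : Polynomial (MvPolynomial (Fin n) k) →+* MvPolynomial (Fin n) k := evalRingHom 0
    have hev : ∀ p, MvPolynomial.constantCoeff (ev (e' p)) = MvPolynomial.constantCoeff p := by
      intro p
      have : (MvPolynomial.constantCoeff.comp ev).comp e' =
          (MvPolynomial.constantCoeff : MvPolynomial (Fin (n + 1)) k →+* k) := by
        apply MvPolynomial.ringHom_ext
        · intro r
          simp [e', ev, e, MvPolynomial.finSuccEquiv_apply]
        · intro i
          refine Fin.cases ?_ (fun i => ?_) i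
          · simp [e', ev, e, MvPolynomial.finSuccEquiv_apply]
          · simp [e', ev, e, MvPolynomial.finSuccEquiv_apply]
      exact RingHom.congr_fun this p
    have h1 : (α.map e') * (γ.map e') = 1 := map_inv_of e' hγ
    have h2 := K1_poly (BQ.quillen_suslin n k) n (Pool.Agent.H158R3.hilbert_syzygy k n) h1
      ((γ.map e').map ev) (map_inv_of ev h1)
    have h3 : ((α.map e').map ev).map MvPolynomial.constantCoeff * β = 1 := by
      have : ((α.map e').map ev).map MvPolynomial.constantCoeff =
        α.map MvPolynomial.constantCoeff := by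
        ext i j
        exact hev _
      rw [this, hβ]
    have h4 := (ih (map_inv_of ev h1) β h3).map (C : MvPolynomial (Fin n) k →+* _)
    have h5 := (h2.mul h4).map f'
    have h6 : ((α.map e' * ((γ.map e').map ev).map C) * ((α.map e').map ev *
        β.map MvPolynomial.C).map (C : MvPolynomial (Fin n) k →+* _)).map f' =
        α * β.map MvPolynomial.C := by
      have h7 : ((γ.map e').map ev).map (C : MvPolynomial (Fin n) k →+* _) *
          ((α.map e').map ev).map (C : MvPolynomial (Fin n) k →+* _) = 1 :=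
        map_inv_of _ (map_inv_of ev (map_inv_of e' (mul_eq_one_comm.1 hγ)))
      have h8 : ((γ.map e').map ev).map C = ((γ.map e').map ev).map
        (C : MvPolynomial (Fin n) k →+* _) := rfl
      have h9 : α.map e' * ((γ.map e').map ev).map C *
          ((α.map e').map ev * β.map MvPolynomial.C).map (C : MvPolynomial (Fin n) k →+* _) =
          α.map e' * (β.map MvPolynomial.C).map (C : MvPolynomial (Fin n) k →+* _) := by
        rw [Matrix.map_mul (L := (α.map e').map ev), h8]
        calc _ = α.map e' * (((γ.map e').map ev).map (C : MvPolynomial (Fin n) k →+* _) *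
            ((α.map e').map ev).map (C : MvPolynomial (Fin n) k →+* _)) *
            (β.map MvPolynomial.C).map (C : MvPolynomial (Fin n) k →+* _) := by
              simp only [Matrix.mul_assoc]
          _ = _ := by rw [h7, Matrix.mul_one]
      rw [h9, Matrix.map_mul]
      congr 1
      · ext i j : 1
        simp [e', f']
      · ext i j : 1
        simp only [Matrix.map_apply]
        have : f' (C (MvPolynomial.C (β i j))) = MvPolynomial.C (β i j) := by
          have h10 : e (MvPolynomial.C (β i j)) = C (MvPolynomial.C (β i j)) := by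
            simp [e, MvPolynomial.finSuccEquiv_apply]
          show e.symm (C (MvPolynomial.C (β i j))) = _
          rw [← h10, e.symm_apply_apply]
        exact this
    rw [h6] at h5
    exact h5

end Higman

end Run7.h464
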