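import Pool.Agent.Run7.h464.Spec

set_option autoImplicit false
set_option linter.unusedSectionVars false

open MvPolynomial

noncomputable section

namespace Run7.h464

section MainVar

theorem constC_map {k B : Type} [Field k] [CommRing B] [Algebra k B] {ι : Type}
    {κ : Type} (M : Matrix κ κ k) :
    (M.map (C (σ := ι) : k →+* MvPolynomial ι k)).map
      (MvPolynomial.map (algebraMap k B)) = (M.map (algebraMap k B)).map C := by
  ext i j : 1
  simp only [Matrix.map_apply, map_C]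

/-- For the Jacobian of an automorphism of affine space, the associated linear automorphism is
stably tame. -/
theorem EE_tame {k : Type} [Field k] {n : ℕ}
    (φ : MvPolynomial (Fin n) k ≃ₐ[k] MvPolynomial (Fin n) k) :
    ∃ (κ : Type) (_ : Fintype κ) (_ : DecidableEq κ) (_ : Nonempty κ),
      ∀ (B : Type) [CommRing B] [Algebra k B], ∃ τ ∈ Tame (Fin n ⊕ (Fin n ⊕ κ)) B,
        ∀ i, τ (X i) = EE κ B φ (X i) := by
  have h1 : (jac φ).map constantCoeff * (jinv φ).map constantCoeff = 1 :=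
    map_inv_of _ (jac_mul_jinv φ)
  have h2 : (jinv φ).map constantCoeff * (jac φ).map constantCoeff = 1 :=
    map_inv_of _ (jinv_mul_jac φ)
  obtain ⟨κ0, _, _, h3⟩ := stable_suslin k n (jac_mul_jinv φ) _ h1
  have h4 := h3.assoc (μ := PUnit)
  refine ⟨κ0 ⊕ PUnit, inferInstance, inferInstance, inferInstance, ?_⟩
  intro B _ _
  have h5 := h4.map (MvPolynomial.map (σ := Fin n) (algebraMap k B))
  -- the constant matrix
  let M : Matrix (Fin n ⊕ (κ0 ⊕ PUnit)) (Fin n ⊕ (κ0 ⊕ PUnit)) k :=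
    Matrix.fromBlocks ((jac φ).map constantCoeff) 0 0 1
  let N : Matrix (Fin n ⊕ (κ0 ⊕ PUnit)) (Fin n ⊕ (κ0 ⊕ PUnit)) k :=
    Matrix.fromBlocks ((jinv φ).map constantCoeff) 0 0 1
  have hMN : M * N = 1 := by
    simp only [M, N]
    rw [Matrix.fromBlocks_multiply, ← Matrix.fromBlocks_one]
    simp [h1]
  have hNM : N * M = 1 := mul_eq_one_comm.1 hMN
  have e1 : M.map (algebraMap k B) * N.map (algebraMap k B) = 1 := map_inv_of _ hMN
  have e2 : N.map (algebraMap k B) * M.map (algebraMap k B) = 1 := map_inv_of _ hNM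
  obtain ⟨τ, hτ, hτX⟩ := lin_tame h5 (M.map (algebraMap k B)) (N.map (algebraMap k B)) e1 e2
  refine ⟨τ, hτ, fun i => ?_⟩
  rw [hτX]
  unfold EE
  rw [lin_X]
  congr 1
  unfold JS
  rw [← constC_map (ι := Fin n), ← Matrix.map_mul]
  congr 1
  have hM : M.map (C (σ := Fin n) : k →+* MvPolynomial (Fin n) k) =
      Matrix.fromBlocks (((jac φ).map constantCoeff).map C) 0 0 1 := by
    simp only [M]
    rw [Matrix.fromBlocks_map]
    congr 1
    · ext i j : 1
      simp
    · ext i j : 1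
      simp
    · exact Matrix.map_one _ (map_zero _) (map_one _)
  rw [hM, Matrix.fromBlocks_multiply]
  congr 1
  · have h6 : ((jinv φ).map constantCoeff).map (C (σ := Fin n) : k →+* MvPolynomial (Fin n) k) *
        ((jac φ).map constantCoeff).map (C (σ := Fin n) : k →+* MvPolynomial (Fin n) k) = 1 :=
      map_inv_of _ h2
    simp only [Matrix.mul_zero, add_zero]
    rw [Matrix.mul_assoc]
    refine (congrArg (jac φ * ·) h6).trans ?_
    exact Matrix.mul_one _
  · simp
  · simp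
  · simp

/-- The main theorem in convenient variables. -/
theorem main_var {k : Type} [Field k] {n : ℕ}
    (φ : MvPolynomial (Fin n) k ≃ₐ[k] MvPolynomial (Fin n) k) :
    ∃ (κ : Type) (_ : Fintype κ) (_ : Nonempty κ)
      (Φ : MvPolynomial (Fin n ⊕ κ) (Polynomial k) ≃ₐ[Polynomial k]
        MvPolynomial (Fin n ⊕ κ) (Polynomial k)),
      (∀ i, mapAlgHom (Polynomial.aeval (0 : k)) (Φ (X (Sum.inl i))) =
        rename Sum.inl (φ (X i))) ∧
      (∀ b, mapAlgHom (Polynomial.aeval (0 : k)) (Φ (X (Sum.inr b))) = X (Sum.inr b)) ∧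
      ∀ (B : Type) [CommRing B] [Algebra k B] (c : Bˣ), ∃ τ ∈ Tame (Fin n ⊕ κ) B,
        ∀ i, τ (X i) = mapAlgHom (Polynomial.aeval (c : B)) (Φ (X i)) := by
  obtain ⟨κ, _, _, _, hE⟩ := EE_tame φ
  have hE0 : ∀ p, mapAlgHom (Polynomial.aeval (0 : k)) (EE κ (Polynomial k) φ p) =
      EE κ k φ (mapAlgHom (Polynomial.aeval (0 : k)) p) := fun p =>
    (spec_apply (EE_spec φ (Polynomial.aeval (0 : k))) p).symm
  have hEE : (EE κ k φ : AA (Fin n) κ k →ₐ[k] AA (Fin n) κ k) = aeval (linF (JS κ k φ)) := by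
    apply MvPolynomial.algHom_ext
    intro j
    rw [aeval_X]
    exact lin_X _ _ _ _ _
  refine ⟨Fin n ⊕ κ, inferInstance, inferInstance, EE κ (Polynomial k) φ * Psi κ φ, ?_, ?_, ?_⟩
  · intro i
    rw [AlgEquiv.mul_apply, hE0]
    have h1 := Psi_zero_inl (κ := κ) φ i
    unfold mm at h1
    rw [h1]
    exact (AlgHom.congr_fun hEE _).trans (linF_inl _ _)
  · intro b
    rw [AlgEquiv.mul_apply, hE0]
    have h1 := Psi_zero_inr (κ := κ) φ b
    unfold mm at h1
    rw [h1]
    refine (AlgHom.congr_fun hEE _).trans ?_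
    rw [linF_comp, NS_mul_JS, linF_one]
  · intro B _ _ c
    obtain ⟨τ1, hτ1, h1⟩ := hE B
    obtain ⟨τ2, hτ2, h2⟩ := Psi_unit (κ := κ) φ c
    refine ⟨τ1 * τ2, mul_mem hτ1 hτ2, fun i => ?_⟩
    refine spec_mul (θ := ((Polynomial.aeval (c : B) : Polynomial k →ₐ[k] B) :
      Polynomial k →+* B)) (fun i => ?_) h2 i
    rw [h1, EE_spec φ (Polynomial.aeval (c : B) : Polynomial k →ₐ[k] B)]

end MainVar

section Transport

/-- Transport of an automorphism along a bijection of the variables. -/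
def tr {B σ σ' : Type} [CommRing B] (e : σ ≃ σ') (τ : MvPolynomial σ B ≃ₐ[B] MvPolynomial σ B) :
    MvPolynomial σ' B ≃ₐ[B] MvPolynomial σ' B :=
  ((renameEquiv B e).symm.trans τ).trans (renameEquiv B e)

theorem tr_X {B σ σ' : Type} [CommRing B] (e : σ ≃ σ')
    (τ : MvPolynomial σ B ≃ₐ[B] MvPolynomial σ B) (i : σ) :
    tr e τ (X (e i)) = rename e (τ (X i)) := by
  simp [tr]

theorem tr_mul {B σ σ' : Type} [CommRing B] (e : σ ≃ σ')
    (τ τ' : MvPolynomial σ B ≃ₐ[B] MvPolynomial σ B) : tr e (τ * τ') = tr e τ * tr e τ' := by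
  apply AlgEquiv.ext
  intro p
  simp only [tr, AlgEquiv.mul_apply, AlgEquiv.trans_apply, AlgEquiv.symm_apply_apply]

theorem tr_one {B σ σ' : Type} [CommRing B] (e : σ ≃ σ') :
    tr e (1 : MvPolynomial σ B ≃ₐ[B] MvPolynomial σ B) = 1 := by
  apply AlgEquiv.ext
  intro p
  simp [tr]

/-- The transport homomorphism. -/
def trHom {B σ σ' : Type} [CommRing B] (e : σ ≃ σ') :
    (MvPolynomial σ B ≃ₐ[B] MvPolynomial σ B) →* (MvPolynomial σ' B ≃ₐ[B] MvPolynomial σ' B) where
  toFun := tr e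
  map_one' := tr_one e
  map_mul' := tr_mul e

theorem tr_tame {B σ σ' : Type} [CommRing B] (e : σ ≃ σ')
    {τ : MvPolynomial σ B ≃ₐ[B] MvPolynomial σ B} (h : τ ∈ Tame σ B) : tr e τ ∈ Tame σ' B := by
  have h1 : Tame σ B ≤ (Tame σ' B).comap (trHom e) := by
    unfold Tame
    rw [Subgroup.closure_le]
    rintro τ (hτ | ⟨i, f, hf, h1, h2⟩)
    · apply Tame.affine
      intro j
      obtain ⟨i, rfl⟩ := e.surjective j
      show (tr e τ (X (e i))).totalDegree ≤ 1
      rw [tr_X]
      exact (totalDegree_rename_le _ _).trans (hτ i)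
    · refine Tame.elem (e i) (rename e f) ?_ ?_ ?_
      · classical
        intro hm
        have h3 := vars_rename _ _ hm
        rw [Finset.mem_image] at h3
        obtain ⟨a, ha, hae⟩ := h3
        exact hf (e.injective hae ▸ ha)
      · show tr e τ (X (e i)) = _
        rw [tr_X, h1, map_add, rename_X]
      · intro j hj
        obtain ⟨a, rfl⟩ := e.surjective j
        show tr e τ (X (e a)) = _
        rw [tr_X, h2 a (fun h => hj (by rw [h])), rename_X]
  exact h1 h

end Transport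

section Final

/-- Every automorphism of affine space is stably a specialisation of tame automorphisms. -/
theorem main_fin (k : Type) [Field k] (n : ℕ)
    (φ : MvPolynomial (Fin n) k ≃ₐ[k] MvPolynomial (Fin n) k) :
    ∃ l : ℕ, 0 < l ∧
      ∃ Φ : MvPolynomial (Fin (n + l)) (Polynomial k) ≃ₐ[Polynomial k]
          MvPolynomial (Fin (n + l)) (Polynomial k),
        (∀ i : Fin n, mapAlgHom (Polynomial.aeval (0 : k)) (Φ (X (Fin.castAdd l i))) =
          rename (Fin.castAdd l) (φ (X i))) ∧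
        (∀ j : Fin l, mapAlgHom (Polynomial.aeval (0 : k)) (Φ (X (Fin.natAdd n j))) =
          X (Fin.natAdd n j)) ∧
        ∀ (B : Type) [CommRing B] [Algebra k B] (c : Bˣ), ∃ τ ∈ Tame (Fin (n + l)) B,
          ∀ i, τ (X i) = mapAlgHom (Polynomial.aeval (c : B)) (Φ (X i)) := by
  obtain ⟨κ, _, _, Φ, h1, h2, h3⟩ := main_var φ
  let l := Fintype.card κ
  let e : Fin n ⊕ κ ≃ Fin (n + l) :=
    (Equiv.sumCongr (Equiv.refl (Fin n)) (Fintype.equivFin κ)).trans finSumFinEquiv
  have he1 : ∀ i, e (Sum.inl i) = Fin.castAdd l i := fun i => rfl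
  have he2 : ∀ b, e (Sum.inr b) = Fin.natAdd n (Fintype.equivFin κ b) := fun b => rfl
  have hmr : ∀ (B : Type) [CommRing B] [Algebra k B] (θ : Polynomial k →ₐ[k] B)
      (p : MvPolynomial (Fin n ⊕ κ) (Polynomial k)),
      mapAlgHom θ (rename e p) = rename e (mapAlgHom θ p) := by
    intro B _ _ θ p
    exact map_rename _ _ _
  refine ⟨l, Fintype.card_pos, tr e Φ, ?_, ?_, ?_⟩
  · intro i
    rw [← he1, tr_X, hmr, h1, rename_rename]
    rfl
  · intro j
    obtain ⟨b, rfl⟩ := (Fintype.equivFin κ).surjective j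
    rw [← he2, tr_X, hmr, h2, rename_X]
  · intro B _ _ c
    obtain ⟨τ, hτ, hX⟩ := h3 B c
    refine ⟨tr e τ, tr_tame e hτ, fun i => ?_⟩
    obtain ⟨a, rfl⟩ := e.surjective i
    rw [tr_X, tr_X, hmr, hX]

end Final

end Run7.h464
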