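import Pool.Agent.Run7.h464.El

set_option autoImplicit false

open Matrix Polynomial

noncomputable section

namespace Run7.h464

section Good

variable {R : Type} [CommRing R]
variable {ι κ μ : Type} [Fintype ι] [DecidableEq ι] [Fintype κ] [DecidableEq κ]
  [Fintype μ] [DecidableEq μ]

/-- `1 + X A` over `R[X]`. -/
def L (A : Matrix ι ι R) : Matrix ι ι R[X] := 1 + (X : R[X]) • A.map C

theorem SE.sylvester {S : Type} [CommRing S] {U : Matrix ι κ S} {V : Matrix κ ι S}
    (h : SE (1 + U * V)) : SE (1 + V * U) := by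
  have h1 : SE (fromBlocks (1 + U * V) U 0 (1 : Matrix κ κ S)) := SE.blocks U h SE.one
  have h2 : SE (fromBlocks (1 : Matrix ι ι S) 0 V 1 *
      (fromBlocks (1 + U * V) U 0 (1 : Matrix κ κ S) * fromBlocks 1 0 (-V) 1)) :=
    (SE.of_El (IsEl.lower V)).mul (h1.mul (SE.of_El (IsEl.lower (-V))))
  have h3 : fromBlocks (1 : Matrix ι ι S) 0 V 1 *
      (fromBlocks (1 + U * V) U 0 (1 : Matrix κ κ S) * fromBlocks 1 0 (-V) 1) =
      fromBlocks 1 U 0 (1 + V * U) := by
    simp only [fromBlocks_multiply]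
    congr 1 <;> simp [add_comm]
  rw [h3] at h2
  exact h2.blocks_right SE.one

theorem L_conj {P : Matrix ι κ R} {Q : Matrix κ ι R} (hPQ : Q * P = 1) (A : Matrix κ κ R)
    (h : SE (L A)) : SE (L (P * A * Q)) := by
  have h1 : L (P * A * Q) = 1 + P.map C * ((X : R[X]) • (A * Q).map C) := by
    rw [L, Matrix.mul_smul, ← Matrix.map_mul, Matrix.mul_assoc]
  rw [h1]
  apply SE.sylvester
  have h2 : (X : R[X]) • (A * Q).map C * P.map C = (X : R[X]) • A.map C := by
    rw [Matrix.smul_mul, ← Matrix.map_mul, Matrix.mul_assoc, hPQ, Matrix.mul_one]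
  rw [h2]
  exact h

/-- A free module with endomorphism for which `1 + X ν` is stably elementary. -/
def Good (M : Type) [AddCommGroup M] [Module R M] (ν : M →ₗ[R] M) : Prop :=
  ∃ (ι : Type) (_ : Fintype ι) (_ : DecidableEq ι) (b : Module.Basis ι R M),
    SE (L (LinearMap.toMatrix b b ν))

variable {M M' M'' : Type} [AddCommGroup M] [Module R M] [AddCommGroup M'] [Module R M']
  [AddCommGroup M''] [Module R M'']

theorem Good.basis {ν : M →ₗ[R] M} (h : Good M ν) (b : Module.Basis ι R M) :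
    SE (L (LinearMap.toMatrix b b ν)) := by
  obtain ⟨κ, _, _, b', h⟩ := h
  have h1 : LinearMap.toMatrix b b ν = LinearMap.toMatrix b' b LinearMap.id *
      LinearMap.toMatrix b' b' ν * LinearMap.toMatrix b b' LinearMap.id := by
    rw [← LinearMap.toMatrix_comp, ← LinearMap.toMatrix_comp]
    simp
  rw [h1]
  apply L_conj _ _ h
  rw [← LinearMap.toMatrix_comp]
  simp

theorem Good.free {ν : M →ₗ[R] M} (h : Good M ν) : Module.Free R M := by
  obtain ⟨κ, _, _, b', h⟩ := h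
  exact Module.Free.of_basis b'

theorem Good.finite {ν : M →ₗ[R] M} (h : Good M ν) : Module.Finite R M := by
  obtain ⟨κ, _, _, b', h⟩ := h
  exact Module.Finite.of_basis b'

theorem Good.equiv {ν : M →ₗ[R] M} {ν' : M' →ₗ[R] M'} (e : M ≃ₗ[R] M')
    (he : ∀ x, e (ν x) = ν' (e x)) (h : Good M ν) : Good M' ν' := by
  obtain ⟨κ, _, _, b, h⟩ := h
  refine ⟨κ, inferInstance, inferInstance, b.map e, ?_⟩
  have : LinearMap.toMatrix (b.map e) (b.map e) ν' = LinearMap.toMatrix b b ν := by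
    ext i j
    simp [LinearMap.toMatrix_apply, ← he]
  rwa [this]

/-- The upper triangular endomorphism of a product. -/
def tri (ν' : M' →ₗ[R] M') (β : M'' →ₗ[R] M') (ν'' : M'' →ₗ[R] M'') :
    (M' × M'') →ₗ[R] (M' × M'') :=
  LinearMap.prod ((ν' ∘ₗ LinearMap.fst R M' M'') + (β ∘ₗ LinearMap.snd R M' M''))
    (ν'' ∘ₗ LinearMap.snd R M' M'')

theorem tri_apply (ν' : M' →ₗ[R] M') (β : M'' →ₗ[R] M') (ν'' : M'' →ₗ[R] M'') (p : M' × M'') :
    tri ν' β ν'' p = (ν' p.1 + β p.2, ν'' p.2) := rfl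

theorem L_tri (ν' : M' →ₗ[R] M') (β : M'' →ₗ[R] M') (ν'' : M'' →ₗ[R] M'')
    (b' : Module.Basis ι R M') (b'' : Module.Basis κ R M'') :
    L (LinearMap.toMatrix (b'.prod b'') (b'.prod b'') (tri ν' β ν'')) =
      fromBlocks (L (LinearMap.toMatrix b' b' ν')) ((X : R[X]) • (LinearMap.toMatrix b'' b' β).map C)
        0 (L (LinearMap.toMatrix b'' b'' ν'')) := by
  ext (i | i) (j | j) <;>
  simp [L, LinearMap.toMatrix_apply, tri_apply, one_apply]

theorem Good.tri {ν' : M' →ₗ[R] M'} (β : M'' →ₗ[R] M') {ν'' : M'' →ₗ[R] M''}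
    (h' : Good M' ν') (h'' : Good M'' ν'') : Good (M' × M'') (tri ν' β ν'') := by
  obtain ⟨κ, _, _, b', h'⟩ := h'
  obtain ⟨μ, _, _, b'', h''⟩ := h''
  refine ⟨κ ⊕ μ, inferInstance, inferInstance, b'.prod b'', ?_⟩
  rw [L_tri]
  exact SE.blocks _ h' h''

theorem Good.of_tri_left [Module.Free R M'] [Module.Finite R M']
    {ν' : M' →ₗ[R] M'} {β : M'' →ₗ[R] M'} {ν'' : M'' →ₗ[R] M''}
    (h : Good (M' × M'') (Run7.h464.tri ν' β ν'')) (h'' : Good M'' ν'') : Good M' ν' := by
  classical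
  obtain ⟨μ, _, _, b'', h''⟩ := h''
  let b' := Module.Free.chooseBasis R M'
  refine ⟨_, inferInstance, inferInstance, b', ?_⟩
  have := h.basis (b'.prod b'')
  rw [L_tri] at this
  exact this.blocks_left h''

theorem Good.of_tri_right [Module.Free R M''] [Module.Finite R M'']
    {ν' : M' →ₗ[R] M'} {β : M'' →ₗ[R] M'} {ν'' : M'' →ₗ[R] M''}
    (h : Good (M' × M'') (Run7.h464.tri ν' β ν'')) (h' : Good M' ν') : Good M'' ν'' := by
  classical
  obtain ⟨μ, _, _, b', h'⟩ := h'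
  let b'' := Module.Free.chooseBasis R M''
  refine ⟨_, inferInstance, inferInstance, b'', ?_⟩
  have := h.basis (b'.prod b'')
  rw [L_tri] at this
  exact this.blocks_right h'

/-- Short exact sequences of modules with endomorphism. -/
structure SES (ν' : M' →ₗ[R] M') (ν : M →ₗ[R] M) (ν'' : M'' →ₗ[R] M'')
    (f : M' →ₗ[R] M) (g : M →ₗ[R] M'') : Prop where
  inj : Function.Injective f
  surj : Function.Surjective g
  exact : ∀ x, g x = 0 ↔ ∃ y, f y = x
  hf : ∀ x, f (ν' x) = ν (f x)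
  hg : ∀ x, g (ν x) = ν'' (g x)

theorem SES.split {ν' : M' →ₗ[R] M'} {ν : M →ₗ[R] M} {ν'' : M'' →ₗ[R] M''}
    {f : M' →ₗ[R] M} {g : M →ₗ[R] M''} (h : SES ν' ν ν'' f g) [Module.Projective R M''] :
    ∃ (β : M'' →ₗ[R] M') (e : (M' × M'') ≃ₗ[R] M),
      ∀ p, e (tri ν' β ν'' p) = ν (e p) := by
  obtain ⟨s, hs⟩ := Module.projective_lifting_property g LinearMap.id h.surj
  have hs' : ∀ x, g (s x) = x := fun x => LinearMap.congr_fun hs x
  have hgf : ∀ x, g (f x) = 0 := fun x => (h.exact _).2 ⟨x, rfl⟩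
  have hbij : Function.Bijective (f.coprod s) := by
    constructor
    · rw [← LinearMap.ker_eq_bot, LinearMap.ker_eq_bot']
      rintro ⟨a, b⟩ hab
      simp only [LinearMap.coprod_apply] at hab
      have h1 := congrArg g hab
      simp only [map_add, hgf, hs', zero_add, map_zero] at h1
      subst h1
      simp only [map_zero, add_zero] at hab
      have h2 : a = 0 := h.inj (by simpa using hab)
      simp [h2]
    · intro m
      obtain ⟨a, ha⟩ := (h.exact (m - s (g m))).1 (by simp [hs'])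
      exact ⟨(a, g m), by simp [ha]⟩
  let e : (M' × M'') ≃ₗ[R] M := LinearEquiv.ofBijective (f.coprod s) hbij
  have he : ∀ p, e p = f p.1 + s p.2 := fun p => by
    simp [e]
  have hsnd : ∀ m, (e.symm m).2 = g m := by
    intro m
    conv_rhs => rw [← e.apply_symm_apply m]
    rw [he]
    simp [hgf, hs']
  refine ⟨LinearMap.fst R M' M'' ∘ₗ e.symm.toLinearMap ∘ₗ ν ∘ₗ s, e, ?_⟩
  rintro ⟨a, b⟩
  rw [tri_apply, he, he]
  simp only [LinearMap.comp_apply, LinearEquiv.coe_coe, LinearMap.fst_apply, map_add, h.hf]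
  rw [add_assoc]
  congr 1
  have h3 := e.apply_symm_apply (ν (s b))
  rw [he] at h3
  rw [hsnd, h.hg, hs'] at h3
  exact h3

theorem SES.good_mid {ν' : M' →ₗ[R] M'} {ν : M →ₗ[R] M} {ν'' : M'' →ₗ[R] M''}
    {f : M' →ₗ[R] M} {g : M →ₗ[R] M''} (h : SES ν' ν ν'' f g) (h' : Good M' ν')
    (h'' : Good M'' ν'') : Good M ν := by
  have := h''.free
  have := h''.finite
  obtain ⟨β, e, he⟩ := h.split
  exact (h'.tri β h'').equiv e he

theorem SES.good_left {ν' : M' →ₗ[R] M'} {ν : M →ₗ[R] M} {ν'' : M'' →ₗ[R] M''}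
    {f : M' →ₗ[R] M} {g : M →ₗ[R] M''} (h : SES ν' ν ν'' f g) [Module.Free R M']
    [Module.Finite R M'] (hm : Good M ν) (h'' : Good M'' ν'') : Good M' ν' := by
  have := h''.free
  have := h''.finite
  obtain ⟨β, e, he⟩ := h.split
  refine Good.of_tri_left (β := β) (hm.equiv e.symm ?_) h''
  intro x
  rw [LinearEquiv.symm_apply_eq, he, e.apply_symm_apply]

theorem SES.good_right {ν' : M' →ₗ[R] M'} {ν : M →ₗ[R] M} {ν'' : M'' →ₗ[R] M''}
    {f : M' →ₗ[R] M} {g : M →ₗ[R] M''} (h : SES ν' ν ν'' f g) [Module.Free R M'']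
    [Module.Finite R M''] (hm : Good M ν) (h' : Good M' ν') : Good M'' ν'' := by
  obtain ⟨β, e, he⟩ := h.split
  refine Good.of_tri_right (β := β) (hm.equiv e.symm ?_) h'
  intro x
  rw [LinearEquiv.symm_apply_eq, he, e.apply_symm_apply]

theorem good_zero [Module.Free R M] [Module.Finite R M] : Good M (0 : M →ₗ[R] M) := by
  classical
  refine ⟨_, inferInstance, inferInstance, Module.Free.chooseBasis R M, ?_⟩
  have : L (LinearMap.toMatrix (Module.Free.chooseBasis R M) (Module.Free.chooseBasis R M)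
    (0 : M →ₗ[R] M)) = 1 := by
    simp [L, Matrix.map_zero]
  rw [this]
  exact SE.one

end Good

end Run7.h464
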