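import Pool.Agent.Run7.h464.Aut
import Pool.Agent.Run7.h464.Higman

set_option autoImplicit false
set_option linter.unusedSectionVars false

open MvPolynomial

noncomputable section

namespace Run7.h464

section Taylor

variable {k : Type} [Field k] {ι : Type} [Fintype ι] [DecidableEq ι]
variable {A : Type} [CommRing A] [Algebra k A]

theorem taylor (a b : ι → A) (s : A) (p : MvPolynomial ι k) :
    ∃ R : A, aeval (fun i => a i + s * b i) p =
      aeval a p + s * (∑ j, aeval a (pderiv j p) * b j) + s ^ 2 * R := by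
  induction p using MvPolynomial.induction_on with
  | C r => exact ⟨0, by simp⟩
  | add p q hp hq =>
    obtain ⟨R, hR⟩ := hp
    obtain ⟨R', hR'⟩ := hq
    refine ⟨R + R', ?_⟩
    rw [map_add, hR, hR', map_add]
    have : ∀ j, aeval a (pderiv j (p + q)) * b j =
      aeval a (pderiv j p) * b j + aeval a (pderiv j q) * b j := by
      intro j
      rw [map_add, map_add, add_mul]
    simp only [this, Finset.sum_add_distrib]
    ring
  | mul_X p i hp =>
    obtain ⟨R, hR⟩ := hp
    refine ⟨(∑ j, aeval a (pderiv j p) * b j) * b i + R * (a i + s * b i), ?_⟩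
    rw [map_mul, map_mul, hR, aeval_X, aeval_X]
    have : ∀ j, aeval a (pderiv j (p * X i)) * b j =
      aeval a (pderiv j p) * b j * a i + aeval a p * (if j = i then b j else 0) := by
      intro j
      rw [pderiv_mul, map_add, map_mul, map_mul, aeval_X, pderiv_X]
      by_cases hj : j = i
      · subst hj
        simp
        ring
      · rw [Pi.single_eq_of_ne (fun h => hj h.symm), if_neg hj]
        simp
        ring
    simp only [this, Finset.sum_add_distrib, ← Finset.sum_mul, ← Finset.mul_sum]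
    rw [Finset.sum_ite_eq' Finset.univ i b, if_pos (Finset.mem_univ i)]
    ring

theorem chain (φ : MvPolynomial ι k →ₐ[k] MvPolynomial ι k) (j : ι) (p : MvPolynomial ι k) :
    pderiv j (φ p) = ∑ l, φ (pderiv l p) * pderiv j (φ (X l)) := by
  induction p using MvPolynomial.induction_on with
  | C r =>
    have : φ (C r) = C r := φ.commutes r
    simp [this]
  | add p q hp hq =>
    rw [map_add, map_add, hp, hq, ← Finset.sum_add_distrib]
    apply Finset.sum_congr rfl
    intro l _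
    rw [map_add, map_add, add_mul]
  | mul_X p i hp =>
    rw [map_mul, pderiv_mul, hp]
    have : ∀ l, φ (pderiv l (p * X i)) * pderiv j (φ (X l)) =
      φ (pderiv l p) * pderiv j (φ (X l)) * φ (X i) +
        φ p * (if l = i then pderiv j (φ (X l)) else 0) := by
      intro l
      rw [pderiv_mul, map_add, map_mul, map_mul, pderiv_X]
      by_cases hl : l = i
      · subst hl
        simp
        ring
      · rw [Pi.single_eq_of_ne (fun h => hl h.symm), if_neg hl]
        simp
        ring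
    simp only [this, Finset.sum_add_distrib, ← Finset.sum_mul, ← Finset.mul_sum]
    rw [Finset.sum_ite_eq' Finset.univ i, if_pos (Finset.mem_univ i)]

/-- Jacobian matrix. -/
def jac (φ : MvPolynomial ι k ≃ₐ[k] MvPolynomial ι k) : Matrix ι ι (MvPolynomial ι k) :=
  fun i j => pderiv j (φ (X i))

/-- Its inverse. -/
def jinv (φ : MvPolynomial ι k ≃ₐ[k] MvPolynomial ι k) : Matrix ι ι (MvPolynomial ι k) :=
  fun i j => φ (pderiv j (φ.symm (X i)))

theorem jinv_mul_jac (φ : MvPolynomial ι k ≃ₐ[k] MvPolynomial ι k) : jinv φ * jac φ = 1 := by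
  ext i j : 1
  rw [Matrix.mul_apply]
  have h := chain (φ : MvPolynomial ι k →ₐ[k] MvPolynomial ι k) j (φ.symm (X i))
  have h1 : (φ : MvPolynomial ι k →ₐ[k] MvPolynomial ι k) (φ.symm (X i)) = X i :=
    φ.apply_symm_apply _
  rw [h1, pderiv_X] at h
  rw [Matrix.one_apply]
  refine Eq.trans h.symm ?_
  by_cases hij : i = j
  · subst hij
    simp
  · rw [Pi.single_eq_of_ne hij, if_neg hij]

theorem jac_mul_jinv (φ : MvPolynomial ι k ≃ₐ[k] MvPolynomial ι k) : jac φ * jinv φ = 1 :=
  mul_eq_one_comm.1 (jinv_mul_jac φ)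

end Taylor

section Psi

variable {k : Type} [Field k] {ι κ : Type} [Fintype ι] [DecidableEq ι]
  [Fintype κ] [DecidableEq κ]

/-- The ring in which the family lives. -/
abbrev AA (ι κ S : Type) [CommRing S] := MvPolynomial (ι ⊕ (ι ⊕ κ)) S

/-- The base variables. -/
def xs (ι κ S : Type) [CommRing S] (i : ι) : AA ι κ S := X (Sum.inl i)

/-- The fibre variables. -/
def ys (ι κ S : Type) [CommRing S] (i : ι) : AA ι κ S := X (Sum.inr (Sum.inl i))

variable (φ : MvPolynomial ι k ≃ₐ[k] MvPolynomial ι k)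

/-- Evaluation at the base variables. -/
def rho (k : Type) [Field k] (ι κ S : Type) [CommRing S] [Algebra k S] :
    MvPolynomial ι k →ₐ[k] AA ι κ S :=
  aeval (xs ι κ S)

theorem rho_phi (S : Type) [CommRing S] [Algebra k S] (p : MvPolynomial ι k) :
    aeval (fun i => rho k ι κ S (φ (X i))) p = rho k ι κ S (φ p) := by
  have : aeval (fun i => rho k ι κ S (φ (X i))) =
      (rho k ι κ S).comp (φ : MvPolynomial ι k →ₐ[k] MvPolynomial ι k) := by
    apply MvPolynomial.algHom_ext
    intro i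
    rw [aeval_X]
    rfl
  rw [this]
  rfl

/-- The parameter. -/
def ss (k ι κ : Type) [Field k] : AA ι κ (Polynomial k) := C Polynomial.X

theorem ss_cancel {p q : AA ι κ (Polynomial k)} (h : ss k ι κ * p = ss k ι κ * q) : p = q := by
  have h0 : ss k ι κ ≠ 0 := by
    unfold ss
    rw [Ne, C_eq_zero]
    exact Polynomial.X_ne_zero
  exact mul_left_cancel₀ h0 h

/-- `u_i = φ_i(x) + s y_i`. -/
def uu (κ : Type) (φ : MvPolynomial ι k ≃ₐ[k] MvPolynomial ι k) (i : ι) :
    AA ι κ (Polynomial k) :=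
  rho k ι κ (Polynomial k) (φ (X i)) + ss k ι κ * ys ι κ (Polynomial k) i

/-- `v_i = ψ_i(x) - s y_i`. -/
def vv (κ : Type) (φ : MvPolynomial ι k ≃ₐ[k] MvPolynomial ι k) (i : ι) :
    AA ι κ (Polynomial k) :=
  rho k ι κ (Polynomial k) (φ.symm (X i)) - ss k ι κ * ys ι κ (Polynomial k) i

theorem exists_Q (i : ι) : ∃ Q R : AA ι κ (Polynomial k),
    ss k ι κ * Q = aeval (uu κ φ) (φ.symm (X i)) - xs ι κ (Polynomial k) i ∧
    Q = ∑ j, rho k ι κ (Polynomial k) (jinv φ i j) * ys ι κ (Polynomial k) j + ss k ι κ * R := by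
  obtain ⟨R, hR⟩ := taylor (fun i => rho k ι κ (Polynomial k) (φ (X i)))
    (ys ι κ (Polynomial k)) (ss k ι κ) (φ.symm (X i))
  refine ⟨_, R, ?_, rfl⟩
  have h1 : aeval (uu κ φ) (φ.symm (X i)) = aeval (fun i => rho k ι κ (Polynomial k) (φ (X i)) +
    ss k ι κ * ys ι κ (Polynomial k) i) (φ.symm (X i)) := rfl
  rw [h1, hR, rho_phi, φ.apply_symm_apply]
  have h2 : rho k ι κ (Polynomial k) (X i) = xs ι κ (Polynomial k) i := aeval_X _ _
  rw [h2]
  have h3 : ∀ j, aeval (fun i => rho k ι κ (Polynomial k) (φ (X i))) (pderiv j (φ.symm (X i))) =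
    rho k ι κ (Polynomial k) (jinv φ i j) := by
    intro j
    rw [rho_phi]
    rfl
  simp only [h3]
  ring

/-- The second half of the family. -/
def QQ (κ : Type) [Fintype κ] [DecidableEq κ]
    (φ : MvPolynomial ι k ≃ₐ[k] MvPolynomial ι k) (i : ι) : AA ι κ (Polynomial k) :=
  (exists_Q (κ := κ) φ i).choose

theorem QQ_spec (i : ι) : ss k ι κ * QQ κ φ i =
    aeval (uu κ φ) (φ.symm (X i)) - xs ι κ (Polynomial k) i :=
  (exists_Q (κ := κ) φ i).choose_spec.choose_spec.1

theorem QQ_spec' (i : ι) : ∃ R, QQ κ φ i =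
    ∑ j, rho k ι κ (Polynomial k) (jinv φ i j) * ys ι κ (Polynomial k) j + ss k ι κ * R :=
  ⟨_, (exists_Q (κ := κ) φ i).choose_spec.choose_spec.2⟩

theorem exists_W (i : ι) : ∃ W : AA ι κ (Polynomial k),
    ss k ι κ * W = xs ι κ (Polynomial k) i - aeval (vv κ φ) (φ (X i)) := by
  obtain ⟨R, hR⟩ := taylor (fun i => rho k ι κ (Polynomial k) (φ.symm (X i)))
    (fun i => - ys ι κ (Polynomial k) i) (ss k ι κ) (φ (X i))
  have h1 : aeval (vv κ φ) (φ (X i)) =
    aeval (fun i => rho k ι κ (Polynomial k) (φ.symm (X i)) +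
      ss k ι κ * - ys ι κ (Polynomial k) i) (φ (X i)) := by
    congr 2
    funext i
    simp only [vv]
    ring
  have h4 := rho_phi (κ := κ) φ.symm (Polynomial k) (φ (X i))
  rw [φ.symm_apply_apply] at h4
  rw [h4] at hR
  have h2 : rho k ι κ (Polynomial k) (X i) = xs ι κ (Polynomial k) i := aeval_X _ _
  rw [h2] at hR
  rw [h1, hR]
  refine ⟨-(∑ j, aeval (fun i => rho k ι κ (Polynomial k) (φ.symm (X i))) (pderiv j (φ (X i))) *
    - ys ι κ (Polynomial k) j + ss k ι κ * R), ?_⟩
  ring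

/-- The second half of the inverse family. -/
def WW (κ : Type) [Fintype κ] [DecidableEq κ]
    (φ : MvPolynomial ι k ≃ₐ[k] MvPolynomial ι k) (i : ι) : AA ι κ (Polynomial k) :=
  (exists_W (κ := κ) φ i).choose

theorem WW_spec (i : ι) : ss k ι κ * WW κ φ i =
    xs ι κ (Polynomial k) i - aeval (vv κ φ) (φ (X i)) :=
  (exists_W (κ := κ) φ i).choose_spec

/-- The substitution of the family. -/
def psF (κ : Type) [Fintype κ] [DecidableEq κ] (φ : MvPolynomial ι k ≃ₐ[k] MvPolynomial ι k) :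
    ι ⊕ (ι ⊕ κ) → AA ι κ (Polynomial k) :=
  Sum.elim (uu κ φ) (Sum.elim (QQ κ φ) (fun a => X (Sum.inr (Sum.inr a))))

/-- The substitution of the inverse family. -/
def psG (κ : Type) [Fintype κ] [DecidableEq κ] (φ : MvPolynomial ι k ≃ₐ[k] MvPolynomial ι k) :
    ι ⊕ (ι ⊕ κ) → AA ι κ (Polynomial k) :=
  Sum.elim (vv κ φ) (Sum.elim (WW κ φ) (fun a => X (Sum.inr (Sum.inr a))))

theorem aeval_comp (f : ι ⊕ (ι ⊕ κ) → AA ι κ (Polynomial k)) (g : ι → AA ι κ (Polynomial k))
    (p : MvPolynomial ι k) :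
    (aeval f : AA ι κ (Polynomial k) →ₐ[Polynomial k] AA ι κ (Polynomial k)) (aeval g p) =
      aeval (fun i => aeval f (g i)) p := by
  have h := MvPolynomial.comp_aeval_apply g
    ((aeval f : AA ι κ (Polynomial k) →ₐ[Polynomial k] AA ι κ (Polynomial k)).restrictScalars k) p
  exact h

theorem aeval_ss (f : ι ⊕ (ι ⊕ κ) → AA ι κ (Polynomial k)) :
    aeval f (ss k ι κ) = ss k ι κ := by
  unfold ss
  rw [aeval_C]
  rfl

theorem psF_uu (i : ι) : aeval (psF κ φ) (xs ι κ (Polynomial k) i) = uu κ φ i := by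
  unfold xs
  rw [aeval_X]
  rfl

theorem psG_vv (i : ι) : aeval (psG κ φ) (xs ι κ (Polynomial k) i) = vv κ φ i := by
  unfold xs
  rw [aeval_X]
  rfl

theorem psF_rho (p : MvPolynomial ι k) :
    aeval (psF κ φ) (rho k ι κ (Polynomial k) p) = aeval (uu κ φ) p := by
  unfold rho
  rw [aeval_comp]
  simp only [psF_uu]

theorem psG_rho (p : MvPolynomial ι k) :
    aeval (psG κ φ) (rho k ι κ (Polynomial k) p) = aeval (vv κ φ) p := by
  unfold rho
  rw [aeval_comp]
  simp only [psG_vv]

theorem psF_ys (i : ι) : aeval (psF κ φ) (ys ι κ (Polynomial k) i) = QQ κ φ i := by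
  unfold ys
  rw [aeval_X]
  rfl

theorem psG_ys (i : ι) : aeval (psG κ φ) (ys ι κ (Polynomial k) i) = WW κ φ i := by
  unfold ys
  rw [aeval_X]
  rfl

theorem psF_vv (i : ι) : aeval (psF κ φ) (vv κ φ i) = xs ι κ (Polynomial k) i := by
  simp only [vv, map_sub, map_mul]
  rw [psF_rho, aeval_ss, psF_ys, QQ_spec]
  ring

theorem psG_uu (i : ι) : aeval (psG κ φ) (uu κ φ i) = xs ι κ (Polynomial k) i := by
  simp only [uu, map_add, map_mul]
  rw [psG_rho, aeval_ss, psG_ys, WW_spec]
  ring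

theorem psFG (i : ι ⊕ (ι ⊕ κ)) : aeval (psF κ φ) (psG κ φ i) = X i := by
  rcases i with i | i | a
  · exact psF_vv φ i
  · show aeval (psF κ φ) (WW κ φ i) = ys ι κ (Polynomial k) i
    apply ss_cancel
    conv_lhs => rw [← aeval_ss (psF κ φ), ← map_mul, WW_spec, map_sub, psF_uu, aeval_comp]
    simp only [psF_vv]
    show uu κ φ i - rho k ι κ (Polynomial k) (φ (X i)) = _
    simp only [uu]
    ring
  · simp [psG, psF]

theorem psGF (i : ι ⊕ (ι ⊕ κ)) : aeval (psG κ φ) (psF κ φ i) = X i := by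
  rcases i with i | i | a
  · exact psG_uu φ i
  · show aeval (psG κ φ) (QQ κ φ i) = ys ι κ (Polynomial k) i
    apply ss_cancel
    conv_lhs => rw [← aeval_ss (psG κ φ), ← map_mul, QQ_spec, map_sub, psG_vv, aeval_comp]
    simp only [psG_uu]
    show rho k ι κ (Polynomial k) (φ.symm (X i)) - vv κ φ i = _
    simp only [vv]
    ring
  · simp [psG, psF]

/-- The family. -/
def Psi (κ : Type) [Fintype κ] [DecidableEq κ] (φ : MvPolynomial ι k ≃ₐ[k] MvPolynomial ι k) :
    AA ι κ (Polynomial k) ≃ₐ[Polynomial k] AA ι κ (Polynomial k) :=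
  mkAut (psF κ φ) (psG κ φ) (psFG φ) (psGF φ)

end Psi

end Run7.h464
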