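import Pool.Agent.Run7.h464.Nil
import Pool.Agent.H94R2.BQ.G
import Pool.Agent.H158R3.Hilb

set_option autoImplicit false

open Matrix Polynomial

noncomputable section

namespace Run7.h464

section Shift

variable {R : Type} [CommRing R] (r : ℕ)
variable {M M' M'' V V' V'' : Type} [AddCommGroup M] [Module R M] [AddCommGroup M'] [Module R M']
  [AddCommGroup M''] [Module R M''] [AddCommGroup V] [Module R V] [AddCommGroup V'] [Module R V']
  [AddCommGroup V''] [Module R V'']

/-- The truncated shift. -/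
def shift (R : Type) [CommRing R] (r : ℕ) (V : Type) [AddCommGroup V] [Module R V] :
    (Fin (r + 1) → V) →ₗ[R] (Fin (r + 1) → V) where
  toFun z := Fin.cons 0 (fun i : Fin r => z i.castSucc)
  map_add' x y := by
    funext i
    refine Fin.cases ?_ (fun i => ?_) i <;> simp
  map_smul' c x := by
    funext i
    refine Fin.cases ?_ (fun i => ?_) i <;> simp

@[simp] theorem shift_zero (z : Fin (r + 1) → V) : shift R r V z 0 = 0 := rfl

@[simp] theorem shift_succ (z : Fin (r + 1) → V) (i : Fin r) :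
    shift R r V z i.succ = z i.castSucc := rfl

theorem shift_pow_aux (k : ℕ) (z : Fin (r + 1) → V) (i : Fin (r + 1)) (hi : (i : ℕ) < k) :
    (shift R r V ^ k) z i = 0 := by
  induction k generalizing i with
  | zero => omega
  | succ k ih =>
    rw [pow_succ', Module.End.mul_apply]
    induction i using Fin.cases with
    | zero => simp
    | succ j =>
      rw [shift_succ]
      exact ih _ (by simpa using hi)

theorem shift_pow : shift R r V ^ (r + 1) = 0 := by
  apply LinearMap.ext
  intro z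
  funext i
  exact shift_pow_aux r (r + 1) z i i.2

theorem good_shift [Module.Free R V] [Module.Finite R V] :
    Good (Fin (r + 1) → V) (shift R r V) := by
  induction r with
  | zero =>
    have : shift R 0 V = 0 := by
      apply LinearMap.ext
      intro z
      funext i
      have hi : i = 0 := Fin.ext (by omega)
      subst hi
      simp
    rw [this]
    exact good_zero
  | succ r ih =>
    let f : V →ₗ[R] (Fin (r + 1 + 1) → V) := LinearMap.single R (fun _ => V) (Fin.last (r + 1))
    let g : (Fin (r + 1 + 1) → V) →ₗ[R] (Fin (r + 1) → V) :=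
      LinearMap.funLeft R V (Fin.castSucc)
    have h : SES (0 : V →ₗ[R] V) (shift R (r + 1) V) (shift R r V) f g := by
      refine ⟨?_, ?_, ?_, ?_, ?_⟩
      · intro x y hxy
        have := congrFun hxy (Fin.last (r + 1))
        simpa [f] using this
      · exact LinearMap.funLeft_surjective_of_injective _ _ _ (Fin.castSucc_injective _)
      · intro x
        constructor
        · intro hx
          refine ⟨x (Fin.last (r + 1)), ?_⟩
          funext i
          refine Fin.lastCases ?_ (fun i => ?_) i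
          · simp [f]
          · have := congrFun hx i
            simp only [g, LinearMap.funLeft_apply] at this
            simp [f, this, Fin.castSucc_ne_last]
        · rintro ⟨y, rfl⟩
          funext i
          simp [f, g, LinearMap.funLeft_apply, Fin.castSucc_ne_last]
      · intro x
        funext i
        refine Fin.cases ?_ (fun i => ?_) i
        · simp
        · simp [f, Pi.single_apply, Fin.castSucc_ne_last]
      · intro x
        funext i
        refine Fin.cases ?_ (fun i => ?_) i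
        · simp [g, LinearMap.funLeft_apply]
        · simp only [g, LinearMap.funLeft_apply, shift_succ]
          rw [← Fin.succ_castSucc, shift_succ]
    exact h.good_mid good_zero ih

/-- The map out of the shift module determined by a linear map on generators. -/
def ext (ν : M →ₗ[R] M) (ℓ : V →ₗ[R] M) : (Fin (r + 1) → V) →ₗ[R] M :=
  ∑ i : Fin (r + 1), (ν ^ (i : ℕ)) ∘ₗ ℓ ∘ₗ LinearMap.proj i

theorem ext_apply (ν : M →ₗ[R] M) (ℓ : V →ₗ[R] M) (z : Fin (r + 1) → V) :
    ext r ν ℓ z = ∑ i : Fin (r + 1), (ν ^ (i : ℕ)) (ℓ (z i)) := by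
  simp [ext]

theorem ext_shift {ν : M →ₗ[R] M} (hν : ν ^ (r + 1) = 0) (ℓ : V →ₗ[R] M)
    (z : Fin (r + 1) → V) : ext r ν ℓ (shift R r V z) = ν (ext r ν ℓ z) := by
  rw [ext_apply, ext_apply, Fin.sum_univ_succ, Fin.sum_univ_castSucc, map_add, map_sum]
  have h1 : ν ((ν ^ ((Fin.last r : Fin (r + 1)) : ℕ)) (ℓ (z (Fin.last r)))) = 0 := by
    rw [Fin.val_last, ← Module.End.mul_apply, ← pow_succ', hν]
    rfl
  rw [h1]
  simp only [shift_zero, map_zero, zero_add, add_zero, shift_succ]
  apply Finset.sum_congr rfl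
  intro i _
  rw [Fin.val_succ, pow_succ', Module.End.mul_apply]
  rfl

theorem ext_single (ν : M →ₗ[R] M) (ℓ : V →ₗ[R] M) (v : V) :
    ext r ν ℓ (Pi.single 0 v) = ℓ v := by
  rw [ext_apply, Fin.sum_univ_succ]
  simp [Fin.succ_ne_zero]

theorem ext_surj {ν : M →ₗ[R] M} {ℓ : V →ₗ[R] M} (h : Function.Surjective ℓ) :
    Function.Surjective (ext r ν ℓ) := fun m => by
  obtain ⟨v, rfl⟩ := h m
  exact ⟨_, ext_single r ν ℓ v⟩

theorem ext_naturality {ν : M →ₗ[R] M} {ν' : M' →ₗ[R] M'} {g : M →ₗ[R] M'}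
    (hg : ∀ x, g (ν x) = ν' (g x)) (ℓ : V →ₗ[R] M) (z : Fin (r + 1) → V) :
    g (ext r ν ℓ z) = ext r ν' (g ∘ₗ ℓ) z := by
  have h : ∀ (k : ℕ) (x : M), g ((ν ^ k) x) = (ν' ^ k) (g x) := by
    intro k
    induction k with
    | zero => intro x; simp
    | succ k ih =>
      intro x
      rw [pow_succ', pow_succ', Module.End.mul_apply, Module.End.mul_apply, hg, ih]
  rw [ext_apply, ext_apply, map_sum]
  exact Finset.sum_congr rfl fun i _ => h _ _

/-- A nil module with a resolution of length `j` by shift modules, ending in a good module. -/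
def Res : ℕ → (M : Type) → [AddCommGroup M] → [Module R M] → (M →ₗ[R] M) → Prop
  | 0, M, _, _, ν => Good M ν
  | j + 1, M, _, _, ν => ∃ (V : Type) (_ : AddCommGroup V) (_ : Module R V)
      (_ : Module.Free R V) (_ : Module.Finite R V) (ℓ : V →ₗ[R] M)
      (K : Type) (_ : AddCommGroup K) (_ : Module R K) (κ : K →ₗ[R] K)
      (i : K →ₗ[R] (Fin (r + 1) → V)),
      SES κ (shift R r V) ν i (ext r ν ℓ) ∧ Res j K κ

theorem Res.equiv {j : ℕ} {ν : M →ₗ[R] M} {ν' : M' →ₗ[R] M'} (e : M ≃ₗ[R] M')
    (he : ∀ x, e (ν x) = ν' (e x)) (h : Res r j M ν) : Res r j M' ν' := by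
  cases j with
  | zero => exact Good.equiv e he h
  | succ j =>
    obtain ⟨V, _, _, _, _, ℓ, K, _, _, κ, i, hs, hK⟩ := h
    refine ⟨V, inferInstance, inferInstance, inferInstance, inferInstance, e.toLinearMap ∘ₗ ℓ, K,
      inferInstance, inferInstance, κ, i, ?_, hK⟩
    have key : ∀ z, ext r ν' (e.toLinearMap ∘ₗ ℓ) z = e (ext r ν ℓ z) := by
      intro z
      rw [← ext_naturality r (g := e.toLinearMap) he]
      rfl
    refine ⟨hs.inj, ?_, ?_, hs.hf, ?_⟩
    · intro m
      obtain ⟨z, hz⟩ := hs.surj (e.symm m)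
      exact ⟨z, by rw [key, hz, e.apply_symm_apply]⟩
    · intro x
      rw [key, ← hs.exact]
      simp
    · intro x
      rw [key, key, hs.hg, he]

theorem SES.nil_left {k : ℕ} {ν' : M' →ₗ[R] M'} {ν : M →ₗ[R] M} {ν'' : M'' →ₗ[R] M''}
    {f : M' →ₗ[R] M} {g : M →ₗ[R] M''} (h : SES ν' ν ν'' f g) (hν : ν ^ k = 0) : ν' ^ k = 0 := by
  have h1 : ∀ (k : ℕ) (x : M'), f ((ν' ^ k) x) = (ν ^ k) (f x) := by
    intro k
    induction k with
    | zero => intro x; simp
    | succ k ih =>
      intro x
      rw [pow_succ', pow_succ', Module.End.mul_apply, Module.End.mul_apply, h.hf, ih]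
  apply LinearMap.ext
  intro x
  apply h.inj
  rw [h1, hν]
  simp

theorem SES.nil_right {k : ℕ} {ν' : M' →ₗ[R] M'} {ν : M →ₗ[R] M} {ν'' : M'' →ₗ[R] M''}
    {f : M' →ₗ[R] M} {g : M →ₗ[R] M''} (h : SES ν' ν ν'' f g) (hν : ν ^ k = 0) :
    ν'' ^ k = 0 := by
  have h1 : ∀ (k : ℕ) (x : M), g ((ν ^ k) x) = (ν'' ^ k) (g x) := by
    intro k
    induction k with
    | zero => intro x; simp
    | succ k ih =>
      intro x
      rw [pow_succ', pow_succ', Module.End.mul_apply, Module.End.mul_apply, h.hg, ih]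
  apply LinearMap.ext
  intro x
  obtain ⟨y, rfl⟩ := h.surj x
  rw [← h1, hν]
  simp

theorem lift_inj {i : M →ₗ[R] M''} (hi : Function.Injective i) (p : M' →ₗ[R] M'')
    (h : ∀ x, ∃ y, i y = p x) : ∃ q : M' →ₗ[R] M, ∀ x, i (q x) = p x := by
  let p' : M' →ₗ[R] LinearMap.range i := p.codRestrict (LinearMap.range i) (fun x => h x)
  refine ⟨(LinearEquiv.ofInjective i hi).symm.toLinearMap ∘ₗ p', fun x => ?_⟩
  have : (LinearEquiv.ofInjective i hi) ((LinearEquiv.ofInjective i hi).symm (p' x)) = p' x :=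
    LinearEquiv.apply_symm_apply _ _
  have h2 := congrArg Subtype.val this
  exact h2

/-- The kernel of an equivariant surjection, with the restricted endomorphism. -/
theorem ses_ker {ν : M →ₗ[R] M} {ν'' : M'' →ₗ[R] M''} {g : M →ₗ[R] M''}
    (hg : ∀ x, g (ν x) = ν'' (g x)) (hs : Function.Surjective g) :
    ∃ κ : LinearMap.ker g →ₗ[R] LinearMap.ker g,
      SES κ ν ν'' (LinearMap.ker g).subtype g := by
  refine ⟨ν.restrict (fun x hx => ?_), ?_⟩
  · rw [LinearMap.mem_ker] at hx ⊢
    rw [hg, hx, map_zero]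
  · refine ⟨Subtype.val_injective, hs, ?_, ?_, hg⟩
    · intro x
      constructor
      · intro hx
        exact ⟨⟨x, hx⟩, rfl⟩
      · rintro ⟨y, rfl⟩
        exact y.2
    · intro x
      rfl

theorem shift_compLeft (φ : V →ₗ[R] V') (z : Fin (r + 1) → V) :
    shift R r V' (φ.compLeft _ z) = φ.compLeft _ (shift R r V z) := by
  funext i
  refine Fin.cases ?_ (fun i => ?_) i <;> simp

theorem ext_compLeft (ν : M →ₗ[R] M) (ℓ : V' →ₗ[R] M) (φ : V →ₗ[R] V') (z : Fin (r + 1) → V) :
    ext r ν ℓ (φ.compLeft _ z) = ext r ν (ℓ ∘ₗ φ) z := by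
  simp [ext_apply]

theorem ext_add (ν : M →ₗ[R] M) (ℓ ℓ' : V →ₗ[R] M) (z : Fin (r + 1) → V) :
    ext r ν (ℓ + ℓ') z = ext r ν ℓ z + ext r ν ℓ' z := by
  simp [ext_apply, Finset.sum_add_distrib]

/-- The horseshoe lemma for `Res`. -/
theorem Res.mid (j : ℕ) : ∀ {M M' M'' : Type} [AddCommGroup M] [Module R M] [AddCommGroup M']
    [Module R M'] [AddCommGroup M''] [Module R M''] {ν' : M' →ₗ[R] M'} {ν : M →ₗ[R] M}
    {ν'' : M'' →ₗ[R] M''} {f : M' →ₗ[R] M} {g : M →ₗ[R] M''} (_ : SES ν' ν ν'' f g)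
    (_ : ν ^ (r + 1) = 0) (_ : Res r j M' ν') (_ : Res r j M'' ν''), Res r j M ν := by
  induction j with
  | zero =>
    intro M M' M'' _ _ _ _ _ _ ν' ν ν'' f g h hν h' h''
    exact h.good_mid h' h''
  | succ j ih =>
    intro M M' M'' _ _ _ _ _ _ ν' ν ν'' f g h hν h' h''
    obtain ⟨A, _, _, _, _, ℓA, KA, _, _, κA, iA, sA, hKA⟩ := h'
    obtain ⟨C, _, _, _, _, ℓC, KC, _, _, κC, iC, sC, hKC⟩ := h''
    obtain ⟨ℓ', hℓ'⟩ := Module.projective_lifting_property g ℓC h.surj
    let pl := LinearMap.fst R A C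
    let pr := LinearMap.snd R A C
    let il := LinearMap.inl R A C
    let ir := LinearMap.inr R A C
    let ℓ : (A × C) →ₗ[R] M := (f ∘ₗ ℓA) ∘ₗ pl + ℓ' ∘ₗ pr
    have key : ∀ z, ext r ν ℓ z = f (ext r ν' ℓA (pl.compLeft _ z)) +
        ext r ν ℓ' (pr.compLeft _ z) := by
      intro z
      rw [ext_add, ext_compLeft, ext_compLeft, ext_naturality r h.hf]
      rfl
    have key2 : ∀ z, g (ext r ν ℓ' z) = ext r ν'' ℓC z := by
      intro z
      rw [ext_naturality r h.hg, hℓ']
    have hgf : ∀ x, g (f x) = 0 := fun x => (h.exact _).2 ⟨x, rfl⟩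
    have key3 : ∀ z, g (ext r ν ℓ z) = ext r ν'' ℓC (pr.compLeft _ z) := by
      intro z
      rw [key, map_add, hgf, zero_add, key2]
    -- a general construction of preimages
    have pre : ∀ (m : M) (w : Fin (r + 1) → C), g m = ext r ν'' ℓC w →
        ∃ z, ext r ν ℓ z = m ∧ pr.compLeft _ z = w := by
      intro m w hw
      have h1 : g (m - ext r ν ℓ' w) = 0 := by
        rw [map_sub, key2, hw, sub_self]
      obtain ⟨a, ha⟩ := (h.exact _).1 h1
      obtain ⟨u, hu⟩ := sA.surj a
      have h2 : pr.compLeft (Fin (r + 1)) (fun i => (u i, w i)) = w := by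
        funext i
        rfl
      have h3 : pl.compLeft (Fin (r + 1)) (fun i => (u i, w i)) = u := by
        funext i
        rfl
      refine ⟨fun i => (u i, w i), ?_, h2⟩
      rw [key, h2, h3, hu, ha]
      abel
    have hsurj : Function.Surjective (ext r ν ℓ) := by
      intro m
      obtain ⟨w, hw⟩ := sC.surj (g m)
      obtain ⟨z, hz, _⟩ := pre m w hw.symm
      exact ⟨z, hz⟩
    obtain ⟨κ, hs⟩ := ses_ker (ext_shift r hν ℓ) hsurj
    obtain ⟨a, ha⟩ := lift_inj (i := (LinearMap.ker (ext r ν ℓ)).subtype)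
      Subtype.val_injective ((il.compLeft (Fin (r + 1))) ∘ₗ iA) (fun x => by
        refine ⟨⟨(il.compLeft (Fin (r + 1))) (iA x), ?_⟩, rfl⟩
        rw [LinearMap.mem_ker, key]
        have h1 : pl.compLeft (Fin (r + 1)) (il.compLeft (Fin (r + 1)) (iA x)) = iA x := by
          funext i
          rfl
        have h2 : pr.compLeft (Fin (r + 1)) (il.compLeft (Fin (r + 1)) (iA x)) = 0 := by
          funext i
          rfl
        rw [h1, h2, (sA.exact _).2 ⟨x, rfl⟩]
        simp)
    obtain ⟨c, hc⟩ := lift_inj sC.inj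
      ((pr.compLeft (Fin (r + 1))) ∘ₗ (LinearMap.ker (ext r ν ℓ)).subtype) (fun x => by
        apply (sC.exact _).1
        have h1 := key3 x.1
        rw [LinearMap.mem_ker.1 x.2, map_zero] at h1
        exact h1.symm)
    have hsub : ∀ x : LinearMap.ker (ext r ν ℓ), (LinearMap.ker (ext r ν ℓ)).subtype x = x.1 :=
      fun x => rfl
    have hnew : SES κA κ κC a c := by
      refine ⟨?_, ?_, ?_, ?_, ?_⟩
      · intro x y hxy
        apply sA.inj
        have h1 := congrArg (LinearMap.ker (ext r ν ℓ)).subtype hxy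
        rw [ha, ha] at h1
        funext i
        exact congrArg Prod.fst (congrFun h1 i)
      · intro y
        obtain ⟨z, hz, hw⟩ := pre 0 (iC y) (by rw [map_zero, (sC.exact _).2 ⟨y, rfl⟩])
        refine ⟨⟨z, hz⟩, ?_⟩
        apply sC.inj
        rw [hc]
        exact hw
      · intro x
        constructor
        · intro hx
          have h1 : pr.compLeft (Fin (r + 1)) x.1 = 0 := by
            have := hc x
            rw [hx, map_zero] at this
            exact this.symm
          have h2 : f (ext r ν' ℓA (pl.compLeft _ x.1)) = 0 := by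
            have h3 := key x.1
            rw [h1, map_zero, add_zero, LinearMap.mem_ker.1 x.2] at h3
            exact h3.symm
          have h4 : ext r ν' ℓA (pl.compLeft _ x.1) = 0 := h.inj (by rw [h2, map_zero])
          obtain ⟨y, hy⟩ := (sA.exact _).1 h4
          refine ⟨y, ?_⟩
          apply Subtype.val_injective
          have h5 := ha y
          rw [hsub] at h5
          rw [h5]
          funext i
          apply Prod.ext
          · exact congrFun hy i
          · exact (congrFun h1 i).symm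
        · rintro ⟨y, rfl⟩
          apply sC.inj
          rw [hc, map_zero]
          have h5 := ha y
          rw [LinearMap.comp_apply, h5]
          funext i
          rfl
      · intro x
        apply Subtype.val_injective
        have h5 := ha (κA x)
        rw [hsub] at h5
        have h6 := hs.hf (a x)
        rw [hsub, ha] at h6
        rw [h5, h6, LinearMap.comp_apply, LinearMap.comp_apply, sA.hf, shift_compLeft]
      · intro x
        apply sC.inj
        rw [hc, LinearMap.comp_apply, hs.hf, sC.hf, hc, LinearMap.comp_apply, shift_compLeft]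
    exact ⟨A × C, inferInstance, inferInstance, inferInstance, inferInstance, ℓ, _, inferInstance,
      inferInstance, κ, _, hs, ih hnew (hs.nil_left (shift_pow r)) hKA hKC⟩

theorem SES.free_left (hQS : BQ.IdemFree R) {ν' : M' →ₗ[R] M'} {ν : M →ₗ[R] M}
    {ν'' : M'' →ₗ[R] M''} {f : M' →ₗ[R] M} {g : M →ₗ[R] M''} (h : SES ν' ν ν'' f g)
    [Module.Free R M] [Module.Finite R M] [Module.Projective R M''] :
    Module.Free R M' ∧ Module.Finite R M' := by
  obtain ⟨β, e, -⟩ := h.split
  have h1 : (LinearMap.fst R M' M'' ∘ₗ e.symm.toLinearMap) ∘ₗ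
      (e.toLinearMap ∘ₗ LinearMap.inl R M' M'') = LinearMap.id := by
    apply LinearMap.ext
    intro x
    simp
  have h2 : Module.Projective R M' := Module.Projective.of_split _ _ h1
  have h3 : Module.Finite R M' := by
    refine Module.Finite.of_surjective (LinearMap.fst R M' M'' ∘ₗ e.symm.toLinearMap) ?_
    intro x
    exact ⟨_, LinearMap.congr_fun h1 x⟩
  exact ⟨hQS.free M', h3⟩

theorem Res.succ (hQS : BQ.IdemFree R) (j : ℕ) : ∀ {M : Type} [AddCommGroup M] [Module R M]
    {ν : M →ₗ[R] M} (_ : ν ^ (r + 1) = 0) (_ : Res r j M ν), Res r (j + 1) M ν := by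
  induction j with
  | zero =>
    intro M _ _ ν hν h
    have h1 : Good M ν := h
    have := h1.free
    have := h1.finite
    obtain ⟨κ, hs⟩ := ses_ker (ext_shift r hν (LinearMap.id : M →ₗ[R] M))
      (ext_surj r Function.surjective_id)
    obtain ⟨h2, h3⟩ := hs.free_left hQS
    exact ⟨M, inferInstance, inferInstance, inferInstance, inferInstance, LinearMap.id, _,
      inferInstance, inferInstance, κ, _, hs, hs.good_left (good_shift r) h1⟩
  | succ j ih =>
    intro M _ _ ν hν h
    obtain ⟨V, _, _, _, _, ℓ, K, _, _, κ, i, hs, hK⟩ := h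
    exact ⟨V, inferInstance, inferInstance, inferInstance, inferInstance, ℓ, K,
      inferInstance, inferInstance, κ, i, hs, ih (hs.nil_left (shift_pow r)) hK⟩

theorem Res.le (hQS : BQ.IdemFree R) {j j' : ℕ} (hj : j ≤ j') {ν : M →ₗ[R] M}
    (hν : ν ^ (r + 1) = 0) (h : Res r j M ν) : Res r j' M ν := by
  induction hj with
  | refl => exact h
  | step _ ih => exact Res.succ r hQS _ hν ih

theorem Res.right (hQS : BQ.IdemFree R) {j : ℕ} {ν' : M' →ₗ[R] M'} {ν : M →ₗ[R] M}
    {ν'' : M'' →ₗ[R] M''} {f : M' →ₗ[R] M} {g : M →ₗ[R] M''} (h : SES ν' ν ν'' f g)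
    (hν : ν ^ (r + 1) = 0) (h' : Res r j M' ν') (hm : Res r j M ν) : Res r (j + 1) M'' ν'' := by
  obtain ⟨V, _, _, _, _, ℓ, K, _, _, κ, i, hs, hK⟩ := Res.succ r hQS _ hν hm
  have hν'' := h.nil_right hν
  have key : ∀ z, ext r ν'' (g ∘ₗ ℓ) z = g (ext r ν ℓ z) := fun z =>
    (ext_naturality r h.hg ℓ z).symm
  have hsurj : Function.Surjective (ext r ν'' (g ∘ₗ ℓ)) := by
    intro m
    obtain ⟨x, rfl⟩ := h.surj m
    obtain ⟨z, rfl⟩ := hs.surj x
    exact ⟨z, key z⟩
  obtain ⟨κ'', hs''⟩ := ses_ker (ext_shift r hν'' (g ∘ₗ ℓ)) hsurj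
  have hsub : ∀ x : LinearMap.ker (ext r ν'' (g ∘ₗ ℓ)),
    (LinearMap.ker (ext r ν'' (g ∘ₗ ℓ))).subtype x = x.1 := fun x => rfl
  obtain ⟨a, ha⟩ := lift_inj (i := (LinearMap.ker (ext r ν'' (g ∘ₗ ℓ))).subtype)
    Subtype.val_injective i (fun x => by
      refine ⟨⟨i x, ?_⟩, rfl⟩
      rw [LinearMap.mem_ker, key, (hs.exact _).2 ⟨x, rfl⟩, map_zero])
  obtain ⟨c, hc⟩ := lift_inj h.inj
    ((ext r ν ℓ) ∘ₗ (LinearMap.ker (ext r ν'' (g ∘ₗ ℓ))).subtype) (fun x => by
      apply (h.exact _).1
      have h1 := x.2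
      rw [LinearMap.mem_ker, key] at h1
      exact h1)
  have hnew : SES κ κ'' ν' a c := by
    refine ⟨?_, ?_, ?_, ?_, ?_⟩
    · intro x y hxy
      apply hs.inj
      rw [← ha, ← ha, hxy]
    · intro y
      obtain ⟨z, hz⟩ := hs.surj (f y)
      refine ⟨⟨z, ?_⟩, ?_⟩
      · rw [LinearMap.mem_ker, key, hz]
        exact (h.exact _).2 ⟨y, rfl⟩
      · apply h.inj
        rw [hc]
        exact hz
    · intro x
      constructor
      · intro hx
        have h1 : ext r ν ℓ x.1 = 0 := by
          have := hc x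
          rw [hx, map_zero] at this
          exact this.symm
        obtain ⟨y, hy⟩ := (hs.exact _).1 h1
        refine ⟨y, ?_⟩
        apply Subtype.val_injective
        have h5 := ha y
        rw [hsub] at h5
        rw [h5, hy]
      · rintro ⟨y, rfl⟩
        apply h.inj
        rw [hc, map_zero, LinearMap.comp_apply, ha]
        exact (hs.exact _).2 ⟨y, rfl⟩
    · intro x
      apply Subtype.val_injective
      have h5 := ha (κ x)
      rw [hsub] at h5
      have h6 := hs''.hf (a x)
      rw [hsub, ha] at h6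
      rw [h5, h6, hs.hf]
    · intro x
      apply h.inj
      rw [hc, LinearMap.comp_apply, hs''.hf, hs.hg, h.hf, hc, LinearMap.comp_apply]
  exact ⟨V, inferInstance, inferInstance, inferInstance, inferInstance, g ∘ₗ ℓ, _,
    inferInstance, inferInstance, κ'', _, hs'',
    Res.mid r j hnew (hs''.nil_left (shift_pow r)) hK h'⟩

theorem Res.good (hQS : BQ.IdemFree R) (j : ℕ) : ∀ {M : Type} [AddCommGroup M] [Module R M]
    [Module.Free R M] [Module.Finite R M] {ν : M →ₗ[R] M} (_ : Res r j M ν), Good M ν := by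
  induction j with
  | zero =>
    intro M _ _ _ _ ν h
    exact h
  | succ j ih =>
    intro M _ _ _ _ ν h
    obtain ⟨V, _, _, _, _, ℓ, K, _, _, κ, i, hs, hK⟩ := h
    obtain ⟨h2, h3⟩ := hs.free_left hQS
    exact hs.good_right (good_shift r) (ih hK)

open Pool.Agent.H158R3 in
theorem res_zero [IsNoetherianRing R] (hQS : BQ.IdemFree R) (d : ℕ) : ∀ (N : Type)
    [AddCommGroup N] [Module R N] [Module.Finite R N] (_ : PdLT R N (d + 1)),
    ∃ j, Res r j N (0 : N →ₗ[R] N) := by
  induction d with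
  | zero =>
    intro N _ _ _ h
    have := projective_of_pdLT_one h
    have := hQS.free N
    exact ⟨0, good_zero⟩
  | succ d ih =>
    intro N _ _ _ h
    obtain ⟨n, g, hg⟩ := Module.Finite.exists_fin' R N
    have h1 : PdLT R (Fin n → R) (d + 1) :=
      pdLT_mono (by omega) (pdLT_one_of_projective inferInstance)
    have h2 : PdLT R (LinearMap.ker g) (d + 1) :=
      pdLT_left (LinearMap.ker g).subtype g Subtype.val_injective hg
        (LinearMap.exact_subtype_ker_map g) h1 h
    obtain ⟨j, hj⟩ := ih (LinearMap.ker g) h2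
    have hs : SES (0 : LinearMap.ker g →ₗ[R] LinearMap.ker g) (0 : (Fin n → R) →ₗ[R] (Fin n → R))
        (0 : N →ₗ[R] N) (LinearMap.ker g).subtype g := by
      refine ⟨Subtype.val_injective, hg, ?_, ?_, ?_⟩
      · intro x
        constructor
        · intro hx
          exact ⟨⟨x, hx⟩, rfl⟩
        · rintro ⟨y, rfl⟩
          exact y.2
      · intro x
        rfl
      · intro x
        simp
    have h0 : (0 : (Fin n → R) →ₗ[R] (Fin n → R)) ^ (r + 1) = 0 := zero_pow (by omega)
    have h3 : Res r 0 (Fin n → R) (0 : (Fin n → R) →ₗ[R] (Fin n → R)) := good_zero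
    exact ⟨j + 1, Res.right r hQS hs h0 hj (Res.le r hQS (Nat.zero_le j) h0 h3)⟩

open Pool.Agent.H158R3 in
theorem res_nil [IsNoetherianRing R] (hQS : BQ.IdemFree R) (d : ℕ) (hd : ∀ (N : Type)
    [AddCommGroup N] [Module R N], PdLT R N (d + 1)) (k : ℕ) : ∀ (M : Type)
    [AddCommGroup M] [Module R M] [Module.Finite R M] (ν : M →ₗ[R] M) (_ : ν ^ (r + 1) = 0)
    (_ : ν ^ k = 0), ∃ j, Res r j M ν := by
  induction k with
  | zero =>
    intro M _ _ _ ν hr hk
    have h1 : ∀ x : M, x = 0 := fun x => by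
      have := LinearMap.congr_fun hk x
      simpa using this
    have : Subsingleton M := ⟨fun a b => by rw [h1 a, h1 b]⟩
    have h2 : ν = 0 := LinearMap.ext fun x => by rw [h1 x, map_zero, map_zero]
    subst h2
    exact ⟨0, good_zero⟩
  | succ k ih =>
    intro M _ _ _ ν hr hk
    let ν'' : LinearMap.range ν →ₗ[R] LinearMap.range ν :=
      ν.restrict (fun x _ => ⟨x, rfl⟩)
    have hg : ∀ x, ν.rangeRestrict (ν x) = ν'' (ν.rangeRestrict x) := fun x => rfl
    obtain ⟨κ, hs⟩ := ses_ker hg (LinearMap.surjective_rangeRestrict ν)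
    have hκ : κ = 0 := by
      apply LinearMap.ext
      intro x
      apply Subtype.val_injective
      have h1 := hs.hf x
      have h2 := x.2
      rw [LinearMap.mem_ker] at h2
      have h3 := congrArg Subtype.val h2
      exact h1.trans h3
    subst hκ
    obtain ⟨j1, hj1⟩ := res_zero r hQS d (LinearMap.ker ν.rangeRestrict) (hd _)
    have hk'' : ν'' ^ k = 0 := by
      have h1 : ∀ (k : ℕ) (x : M), ν.rangeRestrict ((ν ^ k) x) =
          (ν'' ^ k) (ν.rangeRestrict x) := by
        intro k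
        induction k with
        | zero => intro x; simp
        | succ k ih =>
          intro x
          rw [pow_succ', pow_succ', Module.End.mul_apply, Module.End.mul_apply, hg, ih]
      apply LinearMap.ext
      rintro ⟨_, x, rfl⟩
      apply Subtype.val_injective
      have h2 := congrArg Subtype.val (h1 k x)
      have h3 : ν ((ν ^ k) x) = 0 := by
        rw [← Module.End.mul_apply, ← pow_succ', hk]
        rfl
      rw [show (⟨ν x, ⟨x, rfl⟩⟩ : LinearMap.range ν) = ν.rangeRestrict x from rfl, ← h1]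
      exact h3
    obtain ⟨j2, hj2⟩ := ih (LinearMap.range ν) ν'' (hs.nil_right hr) hk''
    refine ⟨max j1 j2, Res.mid r _ hs hr ?_ ?_⟩
    · exact Res.le r hQS (le_max_left _ _) (hs.nil_left hr) hj1
    · exact Res.le r hQS (le_max_right _ _) (hs.nil_right hr) hj2

open Pool.Agent.H158R3 in
/-- Over a regular ring with free projectives, `1 + X A` with `A` nilpotent is stably
elementary. -/
theorem nil_SE [IsNoetherianRing R] (hQS : BQ.IdemFree R) (d : ℕ) (hd : ∀ (N : Type)
    [AddCommGroup N] [Module R N], PdLT R N (d + 1)) {ι : Type} [Fintype ι] [DecidableEq ι]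
    (A : Matrix ι ι R) (k : ℕ) (hA : A ^ k = 0) : SE (L A) := by
  have h1 : (Matrix.toLin' A) ^ (k + 1) = 0 := by
    rw [← Matrix.toLin'_pow, pow_succ, hA, zero_mul, map_zero]
  obtain ⟨j, hj⟩ := res_nil k hQS d hd (k + 1) (ι → R) (Matrix.toLin' A) h1 h1
  have h2 := (Res.good k hQS j hj).basis (Pi.basisFun R ι)
  rwa [LinearMap.toMatrix_eq_toMatrix', LinearMap.toMatrix'_toLin'] at h2

end Shift

end Run7.h464
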