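import Pool.Agent.Run7.h464.Psi

set_option autoImplicit false
set_option linter.unusedSectionVars false

open MvPolynomial

noncomputable section

namespace Run7.h464

section Spec

variable {S B σ : Type} [CommRing S] [CommRing B]

theorem spec_apply {θ : S →+* B} {Φ : MvPolynomial σ S ≃ₐ[S] MvPolynomial σ S}
    {τ : MvPolynomial σ B ≃ₐ[B] MvPolynomial σ B}
    (h : ∀ i, τ (X i) = MvPolynomial.map θ (Φ (X i))) (p : MvPolynomial σ S) :
    τ (MvPolynomial.map θ p) = MvPolynomial.map θ (Φ p) := by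
  induction p using MvPolynomial.induction_on with
  | C r =>
    have h1 : Φ (C r) = C r := Φ.commutes r
    have h2 : τ (C (θ r)) = C (θ r) := τ.commutes _
    rw [h1, map_C, h2]
  | add p q hp hq => rw [map_add, map_add, hp, hq, map_add, map_add]
  | mul_X p i hp => rw [map_mul, map_mul, hp, map_X, h, map_mul, map_mul]

theorem spec_mul {θ : S →+* B} {Φ Φ' : MvPolynomial σ S ≃ₐ[S] MvPolynomial σ S}
    {τ τ' : MvPolynomial σ B ≃ₐ[B] MvPolynomial σ B}
    (h : ∀ i, τ (X i) = MvPolynomial.map θ (Φ (X i)))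
    (h' : ∀ i, τ' (X i) = MvPolynomial.map θ (Φ' (X i))) (i : σ) :
    (τ * τ') (X i) = MvPolynomial.map θ ((Φ * Φ') (X i)) := by
  rw [AlgEquiv.mul_apply, h', spec_apply h, AlgEquiv.mul_apply]

end Spec

section LinSpec

variable {k : Type} [Field k] {ι κ : Type} [Fintype ι] [DecidableEq ι]
  [Fintype κ] [DecidableEq κ]

theorem map_linF {S B : Type} [CommRing S] [CommRing B] (θ : S →+* B)
    (M : Matrix κ κ (MvPolynomial ι S)) (i : ι ⊕ κ) :
    MvPolynomial.map θ (linF M i) = linF (M.map (MvPolynomial.map θ)) i := by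
  rcases i with i | a
  · simp [linF]
  · show MvPolynomial.map θ (∑ b, rename Sum.inl (M a b) * X (Sum.inr b)) =
      ∑ b, rename Sum.inl (MvPolynomial.map θ (M a b)) * X (Sum.inr b)
    rw [map_sum]
    apply Finset.sum_congr rfl
    intro b _
    rw [map_mul, map_rename, map_X]

theorem lin_tame {B : Type} [CommRing B] {e : Matrix κ κ (MvPolynomial ι B)} (he : IsEl e)
    (M N : Matrix κ κ B) (h1 : M * N = 1) (h2 : N * M = 1) :
    ∃ τ ∈ Tame (ι ⊕ κ) B, ∀ i, τ (X i) = linF (e * M.map C) i := by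
  obtain ⟨τ, hτ, hτX⟩ := lin_tame_of_El he
  obtain ⟨τ', hτ', hτX'⟩ := lin_tame_const (ι := ι) M N h1 h2
  refine ⟨τ' * τ, mul_mem hτ' hτ, fun i => ?_⟩
  rw [AlgEquiv.mul_apply, hτX, ← linF_comp]
  have : (τ' : MvPolynomial (ι ⊕ κ) B →ₐ[B] MvPolynomial (ι ⊕ κ) B) = aeval (linF (M.map C)) := by
    apply MvPolynomial.algHom_ext
    intro j
    rw [aeval_X]
    exact hτX' j
  exact AlgHom.congr_fun this _

variable (φ : MvPolynomial ι k ≃ₐ[k] MvPolynomial ι k)

/-- The stabilised Jacobian matrix over a `k`-algebra. -/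
def JS (κ S : Type) [Fintype κ] [DecidableEq κ] [CommRing S] [Algebra k S]
    (φ : MvPolynomial ι k ≃ₐ[k] MvPolynomial ι k) :
    Matrix (ι ⊕ κ) (ι ⊕ κ) (MvPolynomial ι S) :=
  (Matrix.fromBlocks (jac φ) 0 0 (1 : Matrix κ κ (MvPolynomial ι k))).map
    (MvPolynomial.map (algebraMap k S))

/-- Its inverse. -/
def NS (κ S : Type) [Fintype κ] [DecidableEq κ] [CommRing S] [Algebra k S]
    (φ : MvPolynomial ι k ≃ₐ[k] MvPolynomial ι k) :
    Matrix (ι ⊕ κ) (ι ⊕ κ) (MvPolynomial ι S) :=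
  (Matrix.fromBlocks (jinv φ) 0 0 (1 : Matrix κ κ (MvPolynomial ι k))).map
    (MvPolynomial.map (algebraMap k S))

theorem JS_mul_NS (S : Type) [CommRing S] [Algebra k S] : JS κ S φ * NS κ S φ = 1 := by
  apply map_inv_of (MvPolynomial.map (algebraMap k S))
  rw [Matrix.fromBlocks_multiply, ← Matrix.fromBlocks_one]
  congr 1 <;> simp [jac_mul_jinv]

theorem NS_mul_JS (S : Type) [CommRing S] [Algebra k S] : NS κ S φ * JS κ S φ = 1 := by
  apply map_inv_of (MvPolynomial.map (algebraMap k S))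
  rw [Matrix.fromBlocks_multiply, ← Matrix.fromBlocks_one]
  congr 1 <;> simp [jinv_mul_jac]

/-- The linear automorphism given by the Jacobian. -/
def EE (κ S : Type) [Fintype κ] [DecidableEq κ] [CommRing S] [Algebra k S]
    (φ : MvPolynomial ι k ≃ₐ[k] MvPolynomial ι k) : AA ι κ S ≃ₐ[S] AA ι κ S :=
  lin (JS κ S φ) (NS κ S φ) (JS_mul_NS φ S) (NS_mul_JS φ S)

theorem EE_spec {S B : Type} [CommRing S] [Algebra k S] [CommRing B] [Algebra k B]
    (θ : S →ₐ[k] B) (i : ι ⊕ (ι ⊕ κ)) :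
    EE κ B φ (X i) = MvPolynomial.map (θ : S →+* B) (EE κ S φ (X i)) := by
  unfold EE
  rw [lin_X, lin_X, map_linF]
  congr 1
  unfold JS
  ext a b : 1
  simp only [Matrix.map_apply, MvPolynomial.map_map]
  congr 1
  congr 1
  exact θ.comp_algebraMap.symm

end LinSpec

section PsiSpec

variable {k : Type} [Field k] {ι κ : Type} [Fintype ι] [DecidableEq ι]
  [Fintype κ] [DecidableEq κ]
variable (φ : MvPolynomial ι k ≃ₐ[k] MvPolynomial ι k)
variable {B : Type} [CommRing B] [Algebra k B]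

/-- Base change along `θ`. -/
def mm (ι κ : Type) (θ : Polynomial k →ₐ[k] B) : AA ι κ (Polynomial k) →ₐ[k] AA ι κ B :=
  mapAlgHom θ

theorem mm_apply (θ : Polynomial k →ₐ[k] B) (p : AA ι κ (Polynomial k)) :
    mm ι κ θ p = MvPolynomial.map (θ : Polynomial k →+* B) p := rfl

theorem mm_aeval (θ : Polynomial k →ₐ[k] B) (g : ι → AA ι κ (Polynomial k))
    (p : MvPolynomial ι k) : mm ι κ θ (aeval g p) = aeval (fun i => mm ι κ θ (g i)) p :=
  MvPolynomial.comp_aeval_apply g (mm ι κ θ) p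

theorem mm_xs (θ : Polynomial k →ₐ[k] B) (i : ι) :
    mm ι κ θ (xs ι κ (Polynomial k) i) = xs ι κ B i := by
  rw [mm_apply]
  exact map_X _ _

theorem mm_ys (θ : Polynomial k →ₐ[k] B) (i : ι) :
    mm ι κ θ (ys ι κ (Polynomial k) i) = ys ι κ B i := by
  rw [mm_apply]
  exact map_X _ _

theorem mm_rho (θ : Polynomial k →ₐ[k] B) (p : MvPolynomial ι k) :
    mm ι κ θ (rho k ι κ (Polynomial k) p) = rho k ι κ B p := by
  unfold rho
  rw [mm_aeval]
  simp only [mm_xs]

theorem mm_ss (θ : Polynomial k →ₐ[k] B) : mm ι κ θ (ss k ι κ) = C (θ Polynomial.X) := by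
  rw [mm_apply]
  exact map_C _ _

theorem mm_uu (θ : Polynomial k →ₐ[k] B) (i : ι) :
    mm ι κ θ (uu κ φ i) = rho k ι κ B (φ (X i)) + C (θ Polynomial.X) * ys ι κ B i := by
  unfold uu
  rw [map_add, map_mul, mm_rho, mm_ss, mm_ys]

theorem Psi_X (i : ι ⊕ (ι ⊕ κ)) : Psi κ φ (X i) = psF κ φ i := mkAut_X _ _ _ _ _

/-- The specialisation at `s = 0`. -/
theorem Psi_zero_inl (i : ι) :
    mm ι κ (Polynomial.aeval (0 : k)) (Psi κ φ (X (Sum.inl i))) =
      rename Sum.inl (φ (X i)) := by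
  rw [Psi_X]
  show mm ι κ _ (uu κ φ i) = _
  rw [mm_uu]
  simp only [Polynomial.aeval_X, map_zero, zero_mul, add_zero]
  have : rho k ι κ k = rename (Sum.inl : ι → ι ⊕ (ι ⊕ κ)) := by
    apply MvPolynomial.algHom_ext
    intro j
    rw [rename_X]
    exact aeval_X _ _
  rw [this]

theorem rho_eq_rename (p : MvPolynomial ι k) :
    rho k ι κ k p = rename (Sum.inl : ι → ι ⊕ (ι ⊕ κ)) p := by
  have : rho k ι κ k = rename (Sum.inl : ι → ι ⊕ (ι ⊕ κ)) := by
    apply MvPolynomial.algHom_ext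
    intro j
    rw [rename_X]
    exact aeval_X _ _
  rw [this]

theorem NS_self : NS κ k φ =
    Matrix.fromBlocks (jinv φ) 0 0 (1 : Matrix κ κ (MvPolynomial ι k)) := by
  unfold NS
  ext a b : 1
  simp only [Matrix.map_apply]
  rw [Algebra.algebraMap_self]
  exact MvPolynomial.map_id _

theorem Psi_zero_inr (b : ι ⊕ κ) :
    mm ι κ (Polynomial.aeval (0 : k)) (Psi κ φ (X (Sum.inr b))) =
      linF (NS κ k φ) (Sum.inr b) := by
  rw [Psi_X, NS_self]
  rcases b with i | a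
  · show mm ι κ _ (QQ κ φ i) = ∑ b : ι ⊕ κ, _
    obtain ⟨R, hR⟩ := QQ_spec' (κ := κ) φ i
    rw [hR, map_add, map_sum, map_mul, mm_ss]
    simp only [Polynomial.aeval_X, map_zero, zero_mul, add_zero, Fintype.sum_sum_type]
    have h2 : ∑ x : κ, rename Sum.inl (Matrix.fromBlocks (jinv φ) 0 0
        (1 : Matrix κ κ (MvPolynomial ι k)) (Sum.inl i) (Sum.inr x)) *
        (X (Sum.inr (Sum.inr x)) : AA ι κ k) = 0 := by
      apply Finset.sum_eq_zero
      intro x _
      simp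
    rw [h2, add_zero]
    apply Finset.sum_congr rfl
    intro j _
    rw [map_mul, mm_rho, mm_ys, rho_eq_rename]
    rfl
  · show mm ι κ _ (X (Sum.inr (Sum.inr a))) = ∑ b : ι ⊕ κ, _
    rw [mm_apply, map_X, Fintype.sum_sum_type]
    have h1 : ∑ x : ι, rename Sum.inl (Matrix.fromBlocks (jinv φ) 0 0
        (1 : Matrix κ κ (MvPolynomial ι k)) (Sum.inr a) (Sum.inl x)) *
        (X (Sum.inr (Sum.inl x)) : AA ι κ k) = 0 := by
      apply Finset.sum_eq_zero
      intro x _
      simp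
    rw [h1, zero_add]
    simp [Matrix.one_apply]

theorem aeval_mem_supported {T : Set (ι ⊕ (ι ⊕ κ))} {g : ι → AA ι κ B}
    (hg : ∀ i, g i ∈ supported B T) (p : MvPolynomial ι k) : aeval g p ∈ supported B T := by
  induction p using MvPolynomial.induction_on with
  | C r =>
    rw [aeval_C, IsScalarTower.algebraMap_apply k B (AA ι κ B)]
    exact Subalgebra.algebraMap_mem _ _
  | add p q hp hq =>
    rw [map_add]
    exact add_mem hp hq
  | mul_X p i hp =>
    rw [map_mul, aeval_X]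
    exact mul_mem hp (hg i)

theorem X_mem_supported' {T : Set (ι ⊕ (ι ⊕ κ))} {i : ι ⊕ (ι ⊕ κ)} (hi : i ∈ T) :
    (X i : AA ι κ B) ∈ supported B T :=
  Algebra.subset_adjoin ⟨i, hi, rfl⟩

/-- For a unit `c` the specialisation at `c` is tame. -/
theorem Psi_unit (c : Bˣ) : ∃ τ ∈ Tame (ι ⊕ (ι ⊕ κ)) B, ∀ i, τ (X i) =
    MvPolynomial.map ((Polynomial.aeval (c : B) : Polynomial k →ₐ[k] B) : Polynomial k →+* B)
      (Psi κ φ (X i)) := by
  let θ : Polynomial k →ₐ[k] B := Polynomial.aeval (c : B)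
  have hθ : θ Polynomial.X = (c : B) := Polynomial.aeval_X _
  let cc : AA ι κ B := C (c : B)
  let ci : AA ι κ B := C ((c⁻¹ : Bˣ) : B)
  have hcc : cc * ci = 1 := by
    rw [← C_mul, Units.mul_inv, C_1]
  have hcc' : ci * cc = 1 := by
    rw [mul_comm, hcc]
  -- the three factors
  let T1 : Set (ι ⊕ (ι ⊕ κ)) := Set.range (fun i => Sum.inr (Sum.inl i))
  let s1 : ι ⊕ (ι ⊕ κ) → AA ι κ B :=
    Sum.elim (fun _ => 0) (Sum.elim (fun i => ci * rho k ι κ B (φ (X i))) (fun _ => 0))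
  have h10 : ∀ i ∉ T1, s1 i = 0 := by
    rintro (i | i | a) hi
    · rfl
    · exact absurd ⟨i, rfl⟩ hi
    · rfl
  have h11 : ∀ i, s1 i ∈ supported B T1ᶜ := by
    rintro (i | i | a)
    · exact zero_mem _
    · refine mul_mem (Subalgebra.algebraMap_mem _ _) (aeval_mem_supported (fun j => ?_) _)
      apply X_mem_supported'
      rintro ⟨l, hl⟩
      exact Sum.inl_ne_inr hl.symm
    · exact zero_mem _
  let A := shear T1 s1 h10 h11
  have hA : A ∈ Tame (ι ⊕ (ι ⊕ κ)) B := shear_tame _ _ _ _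
  have hAx : ∀ i, A (xs ι κ B i) = xs ι κ B i := fun i => by
    have := shear_X T1 s1 h10 h11 (Sum.inl i)
    exact this.trans (add_zero _)
  have hAy : ∀ i, A (ys ι κ B i) = ys ι κ B i + ci * rho k ι κ B (φ (X i)) := fun i =>
    shear_X T1 s1 h10 h11 (Sum.inr (Sum.inl i))
  have hAw : ∀ a, A (X (Sum.inr (Sum.inr a))) = X (Sum.inr (Sum.inr a)) := fun a => by
    have := shear_X T1 s1 h10 h11 (Sum.inr (Sum.inr a))
    exact this.trans (add_zero _)
  have hAC : ∀ b : B, A (C b) = C b := fun b => A.commutes b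
  let T2 : Set (ι ⊕ (ι ⊕ κ)) := Set.range (fun i => Sum.inl i)
  let s2 : ι ⊕ (ι ⊕ κ) → AA ι κ B :=
    Sum.elim (fun i => - aeval (fun j => cc * ys ι κ B j) (φ.symm (X i))) (fun _ => 0)
  have h20 : ∀ i ∉ T2, s2 i = 0 := by
    rintro (i | b) hi
    · exact absurd ⟨i, rfl⟩ hi
    · rfl
  have h21 : ∀ i, s2 i ∈ supported B T2ᶜ := by
    rintro (i | b)
    · refine neg_mem (aeval_mem_supported (fun j => ?_) _)
      refine mul_mem (Subalgebra.algebraMap_mem _ _) ?_
      apply X_mem_supported'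
      rintro ⟨l, hl⟩
      exact Sum.inl_ne_inr hl
    · exact zero_mem _
  let D := shear T2 s2 h20 h21
  have hD : D ∈ Tame (ι ⊕ (ι ⊕ κ)) B := shear_tame _ _ _ _
  have hDx : ∀ i, D (xs ι κ B i) =
      xs ι κ B i - aeval (fun j => cc * ys ι κ B j) (φ.symm (X i)) := fun i => by
    have := shear_X T2 s2 h20 h21 (Sum.inl i)
    refine this.trans ?_
    rw [sub_eq_add_neg]
    rfl
  have hDb : ∀ b, D (X (Sum.inr b)) = X (Sum.inr b) := fun b => by
    have := shear_X T2 s2 h20 h21 (Sum.inr b)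
    exact this.trans (add_zero _)
  have hDC : ∀ b : B, D (C b) = C b := fun b => D.commutes b
  let f3 : ι ⊕ (ι ⊕ κ) → AA ι κ B :=
    Sum.elim (fun i => cc * ys ι κ B i)
      (Sum.elim (fun i => - (ci * xs ι κ B i)) (fun a => X (Sum.inr (Sum.inr a))))
  let g3 : ι ⊕ (ι ⊕ κ) → AA ι κ B :=
    Sum.elim (fun i => - (cc * ys ι κ B i))
      (Sum.elim (fun i => ci * xs ι κ B i) (fun a => X (Sum.inr (Sum.inr a))))
  have hfC : ∀ (f : ι ⊕ (ι ⊕ κ) → AA ι κ B) (b : B), aeval f (C b) = C b := fun f b => by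
    rw [aeval_C]
    rfl
  have hfx : ∀ i, aeval f3 (xs ι κ B i) = cc * ys ι κ B i := fun i => aeval_X _ _
  have hfy : ∀ i, aeval f3 (ys ι κ B i) = - (ci * xs ι κ B i) := fun i => aeval_X _ _
  have hgx : ∀ i, aeval g3 (xs ι κ B i) = - (cc * ys ι κ B i) := fun i => aeval_X _ _
  have hgy : ∀ i, aeval g3 (ys ι κ B i) = ci * xs ι κ B i := fun i => aeval_X _ _
  have h31 : ∀ i, aeval f3 (g3 i) = X i := by
    rintro (i | i | a)
    · show aeval f3 (- (cc * ys ι κ B i)) = xs ι κ B i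
      rw [map_neg, map_mul, hfy, hfC]
      show -(cc * -(ci * xs ι κ B i)) = _
      rw [mul_neg, neg_neg, ← mul_assoc, hcc, one_mul]
    · show aeval f3 (ci * xs ι κ B i) = ys ι κ B i
      rw [map_mul, hfx, hfC]
      show ci * (cc * ys ι κ B i) = _
      rw [← mul_assoc, hcc', one_mul]
    · exact aeval_X _ _
  have h32 : ∀ i, aeval g3 (f3 i) = X i := by
    rintro (i | i | a)
    · show aeval g3 (cc * ys ι κ B i) = xs ι κ B i
      rw [map_mul, hgy, hfC]
      show cc * (ci * xs ι κ B i) = _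
      rw [← mul_assoc, hcc, one_mul]
    · show aeval g3 (- (ci * xs ι κ B i)) = ys ι κ B i
      rw [map_neg, map_mul, hgx, hfC]
      show -(ci * -(cc * ys ι κ B i)) = _
      rw [mul_neg, neg_neg, ← mul_assoc, hcc', one_mul]
    · exact aeval_X _ _
  let E3 := mkAut f3 g3 h31 h32
  have hE : E3 ∈ Tame (ι ⊕ (ι ⊕ κ)) B := by
    apply Tame.affine
    intro i
    rw [mkAut_X]
    have hdeg : ∀ (b : B) (j : ι ⊕ (ι ⊕ κ)), (C b * X j : AA ι κ B).totalDegree ≤ 1 := by
      intro b j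
      refine (totalDegree_mul _ _).trans ?_
      rw [totalDegree_C, zero_add]
      exact totalDegree_X_le _
    rcases i with i | i | a
    · exact hdeg _ _
    · show (- (ci * xs ι κ B i)).totalDegree ≤ 1
      rw [totalDegree_neg]
      exact hdeg _ _
    · exact totalDegree_X_le _
  refine ⟨A * D * E3, mul_mem (mul_mem hA hD) hE, fun i => ?_⟩
  rw [← mm_apply, Psi_X, AlgEquiv.mul_apply, AlgEquiv.mul_apply, mkAut_X]
  have huu : ∀ j, A (cc * ys ι κ B j) = mm ι κ θ (uu κ φ j) := by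
    intro j
    rw [map_mul, hAC, hAy, mm_uu, hθ]
    show cc * (ys ι κ B j + ci * rho k ι κ B (φ (X j))) =
      rho k ι κ B (φ (X j)) + cc * ys ι κ B j
    rw [mul_add, ← mul_assoc, hcc, one_mul]
    ring
  rcases i with i | i | a
  · show A (D (cc * ys ι κ B i)) = mm ι κ θ (uu κ φ i)
    have : D (cc * ys ι κ B i) = cc * ys ι κ B i := by
      rw [map_mul, hDC]
      congr 1
      exact hDb _
    rw [this, huu]
  · show A (D (- (ci * xs ι κ B i))) = mm ι κ θ (QQ κ φ i)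
    rw [map_neg, map_mul, hDC, hDx, map_neg, map_mul, hAC, map_sub, hAx]
    have h5 : A (aeval (fun j => cc * ys ι κ B j) (φ.symm (X i))) =
        aeval (fun j => mm ι κ θ (uu κ φ j)) (φ.symm (X i)) := by
      have h6 := MvPolynomial.comp_aeval_apply (fun j => cc * ys ι κ B j)
        ((A : AA ι κ B →ₐ[B] AA ι κ B).restrictScalars k) (φ.symm (X i))
      refine h6.trans ?_
      congr 2
      funext j
      exact huu j
    rw [h5]
    have h7 := congrArg (mm ι κ θ) (QQ_spec (κ := κ) φ i)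
    rw [map_mul, mm_ss, hθ, map_sub, mm_aeval, mm_xs] at h7
    have h8 : ci * (cc * mm ι κ θ (QQ κ φ i)) = mm ι κ θ (QQ κ φ i) := by
      rw [← mul_assoc, hcc', one_mul]
    rw [← h8]
    show -(ci * _) = ci * (C (c : B) * mm ι κ θ (QQ κ φ i))
    rw [h7]
    ring
  · show A (D (X (Sum.inr (Sum.inr a)))) = mm ι κ θ (X (Sum.inr (Sum.inr a)))
    rw [hDb, hAw, mm_apply, map_X]

end PsiSpec

end Run7.h464
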