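import Pool.Agent.Run7.h464.Aut

set_option autoImplicit false

open MvPolynomial

noncomputable section

namespace Run7.h464

section Word

variable {k : Type} [Field k] {N : ℕ}

/-- Generators of the tame group of degree at most `c`. -/
def Gen (c : ℕ) (g : MvPolynomial (Fin N) k ≃ₐ[k] MvPolynomial (Fin N) k) : Prop :=
  (∀ i, (g (X i)).totalDegree ≤ 1) ∨
    ∃ (i : Fin N) (f : MvPolynomial (Fin N) k), f.totalDegree ≤ c ∧ i ∉ f.vars ∧
      g (X i) = X i + f ∧ ∀ j, j ≠ i → g (X j) = X j

/-- Products of at most `c` generators of degree at most `c`. -/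
def Word (c : ℕ) (τ : MvPolynomial (Fin N) k ≃ₐ[k] MvPolynomial (Fin N) k) : Prop :=
  ∃ w : List (MvPolynomial (Fin N) k ≃ₐ[k] MvPolynomial (Fin N) k),
    w.length ≤ c ∧ (∀ g ∈ w, Gen c g) ∧ w.prod = τ

theorem Gen.mono {c c' : ℕ} (h : c ≤ c') {g : MvPolynomial (Fin N) k ≃ₐ[k] MvPolynomial (Fin N) k}
    (hg : Gen c g) : Gen c' g := by
  rcases hg with hg | ⟨i, f, hf, hi, h1, h2⟩
  · exact Or.inl hg
  · exact Or.inr ⟨i, f, hf.trans h, hi, h1, h2⟩

theorem Word.mono {c c' : ℕ} (h : c ≤ c')
    {g : MvPolynomial (Fin N) k ≃ₐ[k] MvPolynomial (Fin N) k} (hg : Word c g) : Word c' g := by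
  obtain ⟨w, hw, hg, hp⟩ := hg
  exact ⟨w, hw.trans h, fun g hg' => (hg g hg').mono h, hp⟩

theorem Word.one : Word 0 (1 : MvPolynomial (Fin N) k ≃ₐ[k] MvPolynomial (Fin N) k) :=
  ⟨[], by simp, by simp, by simp⟩

theorem Word.mul {c c' : ℕ} {g g' : MvPolynomial (Fin N) k ≃ₐ[k] MvPolynomial (Fin N) k}
    (h : Word c g) (h' : Word c' g') : Word (c + c') (g * g') := by
  obtain ⟨w, hw, hg, hp⟩ := h
  obtain ⟨w', hw', hg', hp'⟩ := h'
  refine ⟨w ++ w', by rw [List.length_append]; omega, ?_, by rw [List.prod_append, hp, hp']⟩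
  intro g hm
  rw [List.mem_append] at hm
  rcases hm with hm | hm
  · exact (hg g hm).mono (by omega)
  · exact (hg' g hm).mono (by omega)

theorem totalDegree_affine {g : MvPolynomial (Fin N) k ≃ₐ[k] MvPolynomial (Fin N) k}
    (h : ∀ i, (g (X i)).totalDegree ≤ 1) {p : MvPolynomial (Fin N) k} (hp : p.totalDegree ≤ 1) :
    (g p).totalDegree ≤ 1 := by
  conv_lhs => rw [p.as_sum, map_sum]
  refine totalDegree_finsetSum_le (fun m hm => ?_)
  have hm1 : (m.sum fun _ e => e) ≤ 1 := (le_totalDegree hm).trans hp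
  by_cases hm0 : m = 0
  · subst hm0
    have : g (monomial 0 (coeff 0 p)) = C (coeff 0 p) := g.commutes _
    rw [this, totalDegree_C]
    omega
  · obtain ⟨i, hi⟩ : ∃ i, m i ≠ 0 := by
      by_contra hcon
      push Not at hcon
      exact hm0 (Finsupp.ext hcon)
    have hs : m = Finsupp.single i 1 := by
      have h2 : m i ≤ m.sum fun _ e => e := by
        rw [Finsupp.sum]
        exact Finset.single_le_sum (f := fun j => m j) (fun _ _ => Nat.zero_le _)
          (Finsupp.mem_support_iff.2 hi)
      have h3 : m i = 1 := by omega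
      ext j
      by_cases hj : j = i
      · subst hj
        simp [h3]
      · rw [Finsupp.single_eq_of_ne hj]
        by_contra hne
        have h4 : m i + m j ≤ m.sum fun _ e => e := by
          rw [Finsupp.sum, ← Finset.sum_pair (f := fun j => m j) (Ne.symm hj)]
          apply Finset.sum_le_sum_of_subset
          intro x hx
          rw [Finset.mem_insert, Finset.mem_singleton] at hx
          rw [Finsupp.mem_support_iff]
          rcases hx with rfl | rfl
          · exact hi
          · exact hne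
        omega
    have : (monomial m (coeff m p) : MvPolynomial (Fin N) k) = C (coeff m p) * X i := by
      rw [C_mul_X_eq_monomial, ← hs]
    rw [this, map_mul]
    have hC : g (C (coeff m p)) = C (coeff m p) := g.commutes _
    rw [hC]
    refine (totalDegree_mul _ _).trans ?_
    rw [totalDegree_C, zero_add]
    exact h i

theorem affine_inv {g : MvPolynomial (Fin N) k ≃ₐ[k] MvPolynomial (Fin N) k}
    (h : ∀ i, (g (X i)).totalDegree ≤ 1) (i : Fin N) : (g⁻¹ (X i)).totalDegree ≤ 1 := by
  let V := restrictTotalDegree (Fin N) k 1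
  let f : V →ₗ[k] V := (g.toLinearMap).restrict (p := V) (q := V) (fun p hp => by
    rw [mem_restrictTotalDegree] at hp ⊢
    exact totalDegree_affine h hp)
  have hinj : Function.Injective f := by
    intro a b hab
    apply Subtype.ext
    apply g.injective
    exact congrArg Subtype.val hab
  have hsurj : Function.Surjective f := LinearMap.injective_iff_surjective.1 hinj
  obtain ⟨⟨p, hp⟩, hpe⟩ := hsurj ⟨X i, by
    rw [mem_restrictTotalDegree]
    exact totalDegree_X_le _⟩
  have h1 : g p = X i := congrArg Subtype.val hpe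
  have h2 : g⁻¹ (X i) = p := by
    rw [← h1]
    exact g.symm_apply_apply p
  rw [h2]
  exact (mem_restrictTotalDegree _ _ _).1 hp

theorem Gen.inv {c : ℕ} {g : MvPolynomial (Fin N) k ≃ₐ[k] MvPolynomial (Fin N) k}
    (hg : Gen c g) : Gen c g⁻¹ := by
  rcases hg with hg | ⟨i, f, hf, hi, h1, h2⟩
  · exact Or.inl (affine_inv hg)
  · have h3 : ∀ j, j ≠ i → g⁻¹ (X j) = X j := by
      intro j hj
      conv_lhs => rw [← h2 j hj]
      exact g.symm_apply_apply _
    have hsup : f ∈ supported k ({i}ᶜ : Set (Fin N)) := by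
      rw [mem_supported]
      intro j hj hji
      rw [Set.mem_singleton_iff] at hji
      subst hji
      exact hi hj
    have h4 : g⁻¹ f = f := by
      apply fix_supported hsup (g⁻¹ : MvPolynomial (Fin N) k ≃ₐ[k] MvPolynomial (Fin N) k).toAlgHom
      intro j hj
      exact h3 j hj
    refine Or.inr ⟨i, -f, by rwa [totalDegree_neg], by rwa [vars_neg], ?_, h3⟩
    have h5 : g⁻¹ (X i + f) = X i := by
      rw [← h1]
      exact g.symm_apply_apply _
    rw [map_add, h4] at h5
    linear_combination h5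

theorem Word.inv {c : ℕ} {g : MvPolynomial (Fin N) k ≃ₐ[k] MvPolynomial (Fin N) k}
    (h : Word c g) : Word c g⁻¹ := by
  obtain ⟨w, hw, hg, hp⟩ := h
  refine ⟨(w.map (·⁻¹)).reverse, by simpa using hw, ?_, ?_⟩
  · intro g hm
    rw [List.mem_reverse, List.mem_map] at hm
    obtain ⟨a, ha, rfl⟩ := hm
    exact (hg a ha).inv
  · rw [← hp, List.prod_inv_reverse]

end Word

end Run7.h464
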